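import Pool.Agent.Helper76.CDET.Machine

/-!
Determinant sums for tests (MP_b6562f_lc): the machine for choices which are words over an
alphabet, with independent digits.
-/

set_option autoImplicit false
set_option linter.unusedSectionVars false

namespace Pool.Agent.Helper76.CDET

open Finset MvPolynomial Pool.SDL Pool.Agent.SDet
open scoped ENNReal BigOperators

/-- the right hand side: number of reduced pairs -/
theorem sum_rho_le {m D : ℕ} (hDm : D < m) (Θ : ℝ≥0∞) :
    ∑ g : Fin (m - D) ↪o Fin m, Θ ^ rho g ≤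
      ∑ j ∈ Finset.range (D + 1), (Nat.choose (m - D - 1 + j) j : ℝ≥0∞) * Θ ^ j := by
  have h := Pool.Agent.Helper90.SD.U3_rho (m := m) (k := m - D) (by omega) Θ
  rwa [show m - (m - D) + 1 = D + 1 by omega] at h

section
variable {F : Type} [Field F] {V Ya α : Type} [DecidableEq V]

/-- classification of the edges -/
noncomputable def kap {Xt Yt : Type} (X : Xt → V) (Y : Yt → V) (Z : Finset V) (e : V) :
    Option (Option (Xt ⊕ Yt)) :=
  open Classical in
  if h : ∃ x, X x = e then some (some (Sum.inl h.choose))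
  else if h : ∃ y, Y y = e then some (some (Sum.inr h.choose))
  else if e ∈ Z then some none else none

section kap
variable {Xt Yt : Type} (X : Xt → V) (Y : Yt → V) (Z : Finset V)
  (hinj : Function.Injective (Sum.elim X Y)) (hX : ∀ x, X x ∉ Z) (hY : ∀ y, Y y ∉ Z)
include hinj

theorem kap_X (x : Xt) : kap X Y Z (X x) = some (some (Sum.inl x)) := by
  have h : ∃ x', X x' = X x := ⟨x, rfl⟩
  rw [kap, dif_pos h]
  have h2 : (Sum.inl h.choose : Xt ⊕ Yt) = Sum.inl x := hinj h.choose_spec
  rw [h2]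

theorem kap_Y (y : Yt) : kap X Y Z (Y y) = some (some (Sum.inr y)) := by
  have h : ∃ y', Y y' = Y y := ⟨y, rfl⟩
  have h0 : ¬ ∃ x, X x = Y y := by
    rintro ⟨x, hx⟩
    have := @hinj (Sum.inl x) (Sum.inr y) hx
    simp at this
  rw [kap, dif_neg h0, dif_pos h]
  have h2 : (Sum.inr h.choose : Xt ⊕ Yt) = Sum.inr y := hinj h.choose_spec
  rw [h2]

theorem kap_eq_inl (e : V) (x : Xt) : kap X Y Z e = some (some (Sum.inl x)) ↔ e = X x := by
  constructor
  · intro h
    by_cases h1 : ∃ x', X x' = e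
    · obtain ⟨x', rfl⟩ := h1
      rw [kap_X X Y Z hinj] at h
      simp only [Option.some.injEq, Sum.inl.injEq] at h
      rw [h]
    · by_cases h2 : ∃ y', Y y' = e
      · obtain ⟨y', rfl⟩ := h2
        rw [kap_Y X Y Z hinj] at h
        simp at h
      · rw [kap, dif_neg h1, dif_neg h2] at h
        split_ifs at h
        simp at h
  · rintro rfl
    exact kap_X X Y Z hinj x

theorem kap_eq_inr (e : V) (y : Yt) : kap X Y Z e = some (some (Sum.inr y)) ↔ e = Y y := by
  constructor
  · intro h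
    by_cases h1 : ∃ x', X x' = e
    · obtain ⟨x', rfl⟩ := h1
      rw [kap_X X Y Z hinj] at h
      simp at h
    · by_cases h2 : ∃ y', Y y' = e
      · obtain ⟨y', rfl⟩ := h2
        rw [kap_Y X Y Z hinj] at h
        simp only [Option.some.injEq, Sum.inr.injEq] at h
        rw [h]
      · rw [kap, dif_neg h1, dif_neg h2] at h
        split_ifs at h
        simp at h
  · rintro rfl
    exact kap_Y X Y Z hinj y

theorem kap_ne_none (e : V) : kap X Y Z e ≠ none ↔ (∃ x, X x = e) ∨ (∃ y, Y y = e) ∨ e ∈ Z := by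
  constructor
  · intro h
    by_contra h2
    push Not at h2
    apply h
    rw [kap, dif_neg (by push Not; exact h2.1), dif_neg (by push Not; exact h2.2.1),
      if_neg h2.2.2]
  · rintro (⟨x, rfl⟩ | ⟨y, rfl⟩ | hz)
    · rw [kap_X X Y Z hinj]; simp
    · rw [kap_Y X Y Z hinj]; simp
    · rw [kap]
      split_ifs <;> simp

theorem cnt_X (S : Finset V) (x : Xt) :
    cnt (kap X Y Z) S (Sum.inl x) = if X x ∈ S then 1 else 0 := by
  classical
  rw [cnt_eq]
  have h : (S.filter fun e => kap X Y Z e = some (some (Sum.inl x))) =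
      if X x ∈ S then {X x} else ∅ := by
    ext e
    rw [Finset.mem_filter, kap_eq_inl X Y Z hinj]
    split_ifs with h1
    · rw [Finset.mem_singleton]
      constructor
      · rintro ⟨-, h⟩; exact h
      · rintro rfl; exact ⟨h1, rfl⟩
    · constructor
      · rintro ⟨h2, rfl⟩; exact absurd h2 h1
      · intro h; simp at h
  rw [h]
  split_ifs <;> simp

theorem cnt_Y (S : Finset V) (y : Yt) :
    cnt (kap X Y Z) S (Sum.inr y) = if Y y ∈ S then 1 else 0 := by
  classical
  rw [cnt_eq]
  have h : (S.filter fun e => kap X Y Z e = some (some (Sum.inr y))) =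
      if Y y ∈ S then {Y y} else ∅ := by
    ext e
    rw [Finset.mem_filter, kap_eq_inr X Y Z hinj]
    split_ifs with h1
    · rw [Finset.mem_singleton]
      constructor
      · rintro ⟨-, h⟩; exact h
      · rintro rfl; exact ⟨h1, rfl⟩
    · constructor
      · rintro ⟨h2, rfl⟩; exact absurd h2 h1
      · intro h; simp at h
  rw [h]
  split_ifs <;> simp

end kap

/-- THE MACHINE FOR WORDS. Choices are families of words `c h : Fin l → α`, `h : Fin D × Bool`. -/
theorem machine_words [Fintype V] [Fintype α] [DecidableEq α]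
    (f : MvPolynomial (V ⊕ Ya) F) (hml : ∀ μ ∈ f.support, ∀ e, μ (Sum.inl e) ≤ 1)
    (P : Finset V → Prop) (hP : ∀ S, restr S f ≠ 0 ↔ P S) {D l B : ℕ}
    (X : ((Fin D × Bool) × Fin l) × (α × Fin B) → V)
    (Y : Fin D × (Fin l → α) × (Fin l → α) → V) (Z : Finset V)
    (hinj : Function.Injective (Sum.elim X Y)) (hX : ∀ x, X x ∉ Z) (hY : ∀ y, Y y ∉ Z)
    (h1 : ∀ (c : Fin D × Bool → Fin l → α) (S : Finset V), P S →
      (∀ e ∈ S, e ∈ Z ∨ (∃ x, e = X x) ∨ ∃ b, e = Y (b, c (b, false), c (b, true))) →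
      (∀ h i j, X ((h, i), (c h i, j)) ∈ S) ∧ ∀ b, Y (b, c (b, false), c (b, true)) ∈ S)
    (h2 : ∀ c : Fin D × Bool → Fin l → α, ∃ S : Finset V, P S ∧
      ∀ e ∈ S, e ∈ Z ∨ (∃ h i j, e = X ((h, i), (c h i, j))) ∨
        ∃ b, e = Y (b, c (b, false), c (b, true)))
    {r m : ℕ} (s : Fin r → ℕ) (hs : ∀ i, s i ≤ m)
    (A : ∀ i, Matrix (Fin (s i)) (Fin (s i)) (MvPolynomial (V ⊕ Ya) F))
    (hA : ∀ i p q, ∀ μ ∈ (A i p q).support, ∑ e, μ (Sum.inl e) ≤ 1)
    (hf : f = ∑ i, (A i).det) (Q : ℝ≥0∞) (hQ : Q < 1) :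
    (1 - (1 - Q ^ B) ^ Fintype.card α) ^ (2 * D * l) ≤
    Q ^ (2 * D * l * B) * (r * (∑ g : Fin (m - D) ↪o Fin m, (1 - Q) ^ rho g) ^ 2) := by
  classical
  set κ := kap X Y Z with hκ
  let yc : (Fin D × Bool → Fin l → α) → Fin D → Fin D × (Fin l → α) × (Fin l → α) :=
    fun c b => (b, c (b, false), c (b, true))
  have hyc : ∀ c, Function.Injective (yc c) := by
    intro c b b' h
    exact (Prod.ext_iff.1 h).1
  let M : (Fin D × Bool → Fin l → α) → ((Fin D × Bool) × Fin l) × (α × Fin B) → ℕ :=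
    fun c x => if x.2.1 = c x.1.1 x.1.2 then 1 else 0
  have hB : ∀ c, ∑ x, M c x = 2 * D * l * B := by
    intro c
    rw [Fintype.sum_prod_type]
    simp only [M]
    have h3 : ∀ p : (Fin D × Bool) × Fin l,
        ∑ y : α × Fin B, (if y.1 = c p.1 p.2 then 1 else 0) = B := by
      intro p
      rw [Fintype.sum_prod_type]
      have h4 : ∀ x : α, ∑ _y : Fin B, (if x = c p.1 p.2 then 1 else 0) =
          if x = c p.1 p.2 then B else 0 := by
        intro x
        split_ifs <;> simp
      rw [Finset.sum_congr rfl fun x _ => h4 x, Finset.sum_ite_eq' Finset.univ (c p.1 p.2),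
        if_pos (Finset.mem_univ _)]
    rw [Finset.sum_congr rfl fun p _ => h3 p, Finset.sum_const, Finset.card_univ, smul_eq_mul]
    simp only [Fintype.card_prod, Fintype.card_fin, Fintype.card_bool]
    ring
  have hmain := machine f hml P hP κ yc hyc M _ hB
    (by
      intro c S hS hd hy
      have h4 := h1 c S hS (by
        intro e he
        rcases (kap_ne_none X Y Z hinj e).1 (hd e he) with ⟨x, rfl⟩ | ⟨y, rfl⟩ | hz
        · exact Or.inr (Or.inl ⟨x, rfl⟩)
        · obtain ⟨b, hb⟩ := hy _ he y (kap_Y X Y Z hinj y)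
          exact Or.inr (Or.inr ⟨b, by rw [← hb]⟩)
        · exact Or.inl hz)
      constructor
      · rintro ⟨⟨h, i⟩, ⟨a, j⟩⟩
        simp only [M]
        split_ifs with h5
        · subst h5
          rw [hκ, cnt_X X Y Z hinj, if_pos (h4.1 h i j)]
        · exact Nat.zero_le _
      · intro b
        rw [hκ, cnt_Y X Y Z hinj, if_pos (h4.2 b)])
    (by
      intro c
      obtain ⟨S, hS, hS2⟩ := h2 c
      have h4 := h1 c S hS (by
        intro e he
        rcases hS2 e he with hz | ⟨h, i, j, rfl⟩ | hb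
        · exact Or.inl hz
        · exact Or.inr (Or.inl ⟨_, rfl⟩)
        · exact Or.inr (Or.inr hb))
      refine ⟨S, hS, ?_, ?_, ?_, ?_⟩
      · intro e he
        rw [hκ, kap_ne_none X Y Z hinj]
        rcases hS2 e he with hz | ⟨h, i, j, rfl⟩ | ⟨b, rfl⟩
        · exact Or.inr (Or.inr hz)
        · exact Or.inl ⟨_, rfl⟩
        · exact Or.inr (Or.inl ⟨_, rfl⟩)
      · rintro ⟨⟨h, i⟩, ⟨a, j⟩⟩
        rw [hκ, cnt_X X Y Z hinj]
        simp only [M]
        by_cases h5 : a = c h i
        · subst h5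
          rw [if_pos (h4.1 h i j), if_pos rfl]
        · rw [if_neg h5, if_neg]
          intro h6
          rcases hS2 _ h6 with hz | ⟨h', i', j', h7⟩ | ⟨b, h7⟩
          · exact hX _ hz
          · have h8 := @hinj (Sum.inl _) (Sum.inl _) h7
            simp only [Sum.inl.injEq, Prod.mk.injEq] at h8
            obtain ⟨⟨rfl, rfl⟩, rfl, -⟩ := h8
            exact h5 rfl
          · have h8 := @hinj (Sum.inl _) (Sum.inr _) h7
            simp at h8
      · intro b
        rw [hκ, cnt_Y X Y Z hinj, if_pos (h4.2 b)]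
      · intro y h5
        rw [hκ, cnt_Y X Y Z hinj, if_neg]
        intro h6
        rcases hS2 _ h6 with hz | ⟨h', i', j', h7⟩ | ⟨b, h7⟩
        · exact hY _ hz
        · have h8 := @hinj (Sum.inr _) (Sum.inl _) h7
          simp at h8
        · have h8 := @hinj (Sum.inr _) (Sum.inr _) h7
          simp only [Sum.inr.injEq] at h8
          exact h5 ⟨b, h8.symm⟩)
    (by
      intro c S S' _ _ hd hd' hh hh' hfree
      refine uniq_of_injective κ ?_ S S' hd hd' ?_ hfree
      · intro e e' v h h'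
        rcases v with x | y
        · rw [hκ, kap_eq_inl X Y Z hinj] at h h'
          rw [h, h']
        · rw [hκ, kap_eq_inr X Y Z hinj] at h h'
          rw [h, h']
      · intro v
        rw [tgt_of_hits κ _ _ (hyc c) S hh, tgt_of_hits κ _ _ (hyc c) S' hh'])
    s hs A hA hf Q hQ
  refine le_trans (le_of_eq ?_) hmain
  have h5 := series_all (P := (Fin D × Bool) × Fin l) (α := α) (S := Fin B) Q hQ
  rw [Fintype.card_fin] at h5
  have h6 : Fintype.card ((Fin D × Bool) × Fin l) = 2 * D * l := by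
    simp only [Fintype.card_prod, Fintype.card_fin, Fintype.card_bool]
    ring
  rw [h6] at h5
  rw [← h5]
  congr 1
  refine tsum_congr fun u => ?_
  have h7 : (∃ c : Fin D × Bool → Fin l → α, ∀ x, M c x ≤ u x) ↔
      ∀ p, ∃ e, ∀ s, 1 ≤ u (p, (e, s)) := by
    constructor
    · rintro ⟨c, hc⟩ ⟨h, i⟩
      refine ⟨c h i, fun s => ?_⟩
      have h8 := hc ((h, i), (c h i, s))
      simpa [M] using h8
    · intro h8
      choose c hc using h8
      refine ⟨fun h i => c (h, i), ?_⟩
      rintro ⟨⟨h, i⟩, ⟨a, j⟩⟩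
      simp only [M]
      split_ifs with h9
      · subst h9
        exact hc (h, i) j
      · exact Nat.zero_le _
  by_cases h8 : ∀ p, ∃ e, ∀ s, 1 ≤ u (p, (e, s))
  · rw [if_pos h8, if_pos (h7.2 h8)]
  · rw [if_neg h8, if_neg (fun h9 => h8 (h7.1 h9))]

end

end Pool.Agent.Helper76.CDET
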