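import Pool.Agent.Helper76.CDET.Digits

/-!
Determinant sums for tests (MP_b6562f_lc): the machine with real numbers.
-/

set_option autoImplicit false

namespace Pool.Agent.Helper76.CDET

open Finset MvPolynomial Pool.SDL Pool.Agent.SDet
open scoped ENNReal BigOperators

theorem ennreal_to_real (A B N E r m D : ℕ) (q : ℝ) (hq0 : 0 < q) (hq1 : q < 1)
    (key : (1 - (1 - ENNReal.ofReal q ^ B) ^ A) ^ N ≤ ENNReal.ofReal q ^ E * (r *
      (∑ j ∈ Finset.range (D + 1), (Nat.choose (m - D - 1 + j) j : ℝ≥0∞) *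
        (1 - ENNReal.ofReal q) ^ j) ^ 2)) :
    (1 - (1 - q ^ B) ^ A) ^ N ≤ q ^ E * (r *
      (∑ j ∈ Finset.range (D + 1), (Nat.choose (m - D - 1 + j) j : ℝ) * (1 - q) ^ j) ^ 2) := by
  have e0 : (1 : ℝ≥0∞) - ENNReal.ofReal q = ENNReal.ofReal (1 - q) := by
    rw [ENNReal.ofReal_sub _ hq0.le, ENNReal.ofReal_one]
  have h1q : 0 ≤ 1 - q := by linarith
  have hqN : q ^ B ≤ 1 := pow_le_one₀ hq0.le hq1.le
  have h1qN : 0 ≤ 1 - q ^ B := by linarith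
  have h1qN' : (1 - q ^ B) ^ A ≤ 1 := pow_le_one₀ h1qN (by linarith [pow_pos hq0 B])
  have e1 : ((1 : ℝ≥0∞) - (1 - ENNReal.ofReal q ^ B) ^ A) ^ N =
      ENNReal.ofReal ((1 - (1 - q ^ B) ^ A) ^ N) := by
    rw [ENNReal.ofReal_pow (by linarith), ENNReal.ofReal_sub _ (pow_nonneg h1qN _),
      ENNReal.ofReal_pow h1qN, ENNReal.ofReal_sub _ (pow_nonneg hq0.le _),
      ENNReal.ofReal_pow hq0.le, ENNReal.ofReal_one]
  have e2 : ∑ j ∈ Finset.range (D + 1), (Nat.choose (m - D - 1 + j) j : ℝ≥0∞) *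
      (1 - ENNReal.ofReal q) ^ j = ENNReal.ofReal (∑ j ∈ Finset.range (D + 1),
        (Nat.choose (m - D - 1 + j) j : ℝ) * (1 - q) ^ j) := by
    rw [ENNReal.ofReal_sum_of_nonneg (fun j _ => by positivity)]
    apply Finset.sum_congr rfl
    intro j _
    rw [e0, ENNReal.ofReal_mul (by positivity), ENNReal.ofReal_pow h1q, ENNReal.ofReal_natCast]
  have hS : 0 ≤ ∑ j ∈ Finset.range (D + 1), (Nat.choose (m - D - 1 + j) j : ℝ) * (1 - q) ^ j :=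
    Finset.sum_nonneg (fun j _ => by positivity)
  rw [e1, e2, ← ENNReal.ofReal_pow hq0.le, ← ENNReal.ofReal_pow hS, ← ENNReal.ofReal_natCast,
    ← ENNReal.ofReal_mul (by positivity), ← ENNReal.ofReal_mul (by positivity)] at key
  exact (ENNReal.ofReal_le_ofReal_iff (by positivity)).mp key

theorem ofReal_lt_one {q : ℝ} (hq1 : q < 1) : ENNReal.ofReal q < 1 := by
  rw [← ENNReal.ofReal_one]
  exact (ENNReal.ofReal_lt_ofReal_iff (by norm_num)).mpr hq1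

section
variable {F : Type} [Field F] {V Ya α : Type} [DecidableEq V]

theorem machine_words_real [Fintype V] [Fintype α] [DecidableEq α]
    (f : MvPolynomial (V ⊕ Ya) F) (hml : ∀ μ ∈ f.support, ∀ e, μ (Sum.inl e) ≤ 1)
    (P : Finset V → Prop) (hP : ∀ S, restr S f ≠ 0 ↔ P S) {D l B : ℕ}
    (X : ((Fin D × Bool) × Fin l) × (α × Fin B) → V)
    (Y : Fin D × (Fin l → α) × (Fin l → α) → V) (Z : Finset V)
    (hinj : Function.Injective (Sum.elim X Y)) (hX : ∀ x, X x ∉ Z) (hY : ∀ y, Y y ∉ Z)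
    (h1 : ∀ (c : Fin D × Bool → Fin l → α) (S : Finset V), P S →
      (∀ e ∈ S, e ∈ Z ∨ (∃ x, e = X x) ∨ ∃ b, e = Y (b, c (b, false), c (b, true))) →
      (∀ h i j, X ((h, i), (c h i, j)) ∈ S) ∧ ∀ b, Y (b, c (b, false), c (b, true)) ∈ S)
    (h2 : ∀ c : Fin D × Bool → Fin l → α, ∃ S : Finset V, P S ∧
      ∀ e ∈ S, e ∈ Z ∨ (∃ h i j, e = X ((h, i), (c h i, j))) ∨
        ∃ b, e = Y (b, c (b, false), c (b, true)))
    {r m : ℕ} (s : Fin r → ℕ) (hs : ∀ i, s i ≤ m)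
    (A : ∀ i, Matrix (Fin (s i)) (Fin (s i)) (MvPolynomial (V ⊕ Ya) F))
    (hA : ∀ i p q, ∀ μ ∈ (A i p q).support, ∑ e, μ (Sum.inl e) ≤ 1)
    (hf : f = ∑ i, (A i).det) (hDm : D < m) (q : ℝ) (hq0 : 0 < q) (hq1 : q < 1) :
    (1 - (1 - q ^ B) ^ Fintype.card α) ^ (2 * D * l) ≤ q ^ (2 * D * l * B) * (r *
      (∑ j ∈ Finset.range (D + 1), (Nat.choose (m - D - 1 + j) j : ℝ) * (1 - q) ^ j) ^ 2) := by
  refine ennreal_to_real _ _ _ _ _ _ _ q hq0 hq1 ?_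
  refine (machine_words f hml P hP X Y Z hinj hX hY h1 h2 s hs A hA hf _
    (ofReal_lt_one hq1)).trans ?_
  gcongr
  exact sum_rho_le hDm _

/-- the form for bits -/
theorem machine_bits_real [Fintype V]
    (f : MvPolynomial (V ⊕ Ya) F) (hml : ∀ μ ∈ f.support, ∀ e, μ (Sum.inl e) ≤ 1)
    (P : Finset V → Prop) (hP : ∀ S, restr S f ≠ 0 ↔ P S) {D l B : ℕ}
    (X : ((Fin D × Bool) × Fin l) × (Bool × Fin B) → V)
    (Y : Fin D × (Fin l → Bool) × (Fin l → Bool) → V) (Z : Finset V)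
    (hinj : Function.Injective (Sum.elim X Y)) (hX : ∀ x, X x ∉ Z) (hY : ∀ y, Y y ∉ Z)
    (h1 : ∀ (c : Fin D × Bool → Fin l → Bool) (S : Finset V), P S →
      (∀ e ∈ S, e ∈ Z ∨ (∃ x, e = X x) ∨ ∃ b, e = Y (b, c (b, false), c (b, true))) →
      (∀ h i j, X ((h, i), (c h i, j)) ∈ S) ∧ ∀ b, Y (b, c (b, false), c (b, true)) ∈ S)
    (h2 : ∀ c : Fin D × Bool → Fin l → Bool, ∃ S : Finset V, P S ∧
      ∀ e ∈ S, e ∈ Z ∨ (∃ h i j, e = X ((h, i), (c h i, j))) ∨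
        ∃ b, e = Y (b, c (b, false), c (b, true)))
    {r m : ℕ} (s : Fin r → ℕ) (hs : ∀ i, s i ≤ m)
    (A : ∀ i, Matrix (Fin (s i)) (Fin (s i)) (MvPolynomial (V ⊕ Ya) F))
    (hA : ∀ i p q, ∀ μ ∈ (A i p q).support, ∑ e, μ (Sum.inl e) ≤ 1)
    (hf : f = ∑ i, (A i).det) (hDm : D < m) (q : ℝ) (hq0 : 0 < q) (hq1 : q < 1) :
    (2 - q ^ B) ^ (2 * D * l) ≤ r *
      (∑ j ∈ Finset.range (D + 1), (Nat.choose (m - D - 1 + j) j : ℝ) * (1 - q) ^ j) ^ 2 := by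
  have h := machine_words_real f hml P hP X Y Z hinj hX hY h1 h2 s hs A hA hf hDm q hq0 hq1
  rw [Fintype.card_bool] at h
  have h3 : (1 - (1 - q ^ B) ^ 2) ^ (2 * D * l) =
      q ^ (2 * D * l * B) * (2 - q ^ B) ^ (2 * D * l) := by
    rw [mul_comm (2 * D * l) B, pow_mul q B, ← mul_pow]
    congr 1
    ring
  rw [h3] at h
  exact le_of_mul_le_mul_left h (pow_pos hq0 _)

end

end Pool.Agent.Helper76.CDET
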