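import Pool.Agent.Helper76.CDET.Real

/-!
Determinant sums for tests (MP_b6562f_lc): from graphs to sets of pairs (loops are removed), and
the trivial degree bound.
-/

set_option autoImplicit false
set_option linter.unusedSectionVars false

namespace Pool.Agent.Helper76.CDET

open Finset MvPolynomial

section
variable {F : Type} [Field F] {V Ya : Type} [DecidableEq V]

/-- the restriction as a homomorphism -/
noncomputable def restrHom (F Ya : Type) [Field F] (S : Finset V) :
    MvPolynomial (V ⊕ Ya) F →ₐ[F] MvPolynomial (V ⊕ Ya) F :=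
  aeval (Sum.elim (fun e => if e ∈ S then X (Sum.inl e) else 0) (fun y => X (Sum.inr y)))

theorem restrHom_apply (S : Finset V) (f : MvPolynomial (V ⊕ Ya) F) :
    restrHom F Ya S f = restr S f := rfl

theorem restr_restr [Fintype V] (S T : Finset V) (f : MvPolynomial (V ⊕ Ya) F) :
    restr S (restr T f) = restr (S ∩ T) f := by
  ext μ
  rw [coeff_restr, coeff_restr, coeff_restr]
  by_cases h1 : sup μ ⊆ S <;> by_cases h2 : sup μ ⊆ T <;>
    simp [h1, h2, Finset.subset_inter_iff]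

theorem support_restr [Fintype V] (S : Finset V) (f : MvPolynomial (V ⊕ Ya) F) :
    (restr S f).support ⊆ f.support := by
  intro μ hμ
  rw [mem_support_iff, coeff_restr] at hμ
  split_ifs at hμ with h
  · exact mem_support_iff.2 hμ
  · exact absurd rfl hμ

/-- degree in the edge variables of a determinant -/
theorem deg_det [Fintype V] {s : ℕ} (A : Matrix (Fin s) (Fin s) (MvPolynomial (V ⊕ Ya) F))
    (hA : ∀ p q, ∀ μ ∈ (A p q).support, ∑ e, μ (Sum.inl e) ≤ 1) (μ : (V ⊕ Ya) →₀ ℕ)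
    (hμ : μ ∈ A.det.support) : ∑ e, μ (Sum.inl e) ≤ s := by
  classical
  have key : ∀ (T : Finset (Fin s)) (g : Fin s → MvPolynomial (V ⊕ Ya) F),
      (∀ i ∈ T, ∀ μ ∈ (g i).support, ∑ e, μ (Sum.inl e) ≤ 1) →
      ∀ μ ∈ (∏ i ∈ T, g i).support, ∑ e, μ (Sum.inl e) ≤ #T := by
    intro T
    induction T using Finset.induction_on with
    | empty =>
      intro g _ μ hμ
      rw [Finset.prod_empty] at hμ
      have : μ = 0 := by
        by_contra hne
        rw [mem_support_iff, coeff_one, if_neg (Ne.symm hne)] at hμ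
        exact hμ rfl
      subst this
      simp
    | insert a T ha ih =>
      intro g hg μ hμ
      rw [Finset.prod_insert ha] at hμ
      have h1 := support_mul _ _ hμ
      obtain ⟨u, hu, v, hv, rfl⟩ := Finset.mem_add.1 h1
      have h2 := hg a (Finset.mem_insert_self _ _) u hu
      have h3 := ih g (fun i hi => hg i (Finset.mem_insert_of_mem hi)) v hv
      simp only [Finsupp.add_apply, Finset.sum_add_distrib]
      rw [Finset.card_insert_of_notMem ha]
      omega
  rw [Matrix.det_apply, mem_support_iff, coeff_sum] at hμ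
  obtain ⟨σ, -, hσ⟩ := Finset.exists_ne_zero_of_sum_ne_zero hμ
  have h4 : coeff μ (∏ i, A (σ i) i) ≠ 0 := by
    intro h
    apply hσ
    rcases Int.units_eq_one_or (Equiv.Perm.sign σ) with h5 | h5 <;> rw [h5] <;> simp [h]
  have h5 := key Finset.univ (fun i => A (σ i) i) (fun i _ => hA _ _) μ (mem_support_iff.2 h4)
  simpa using h5

theorem deg_sum_det [Fintype V] {r m : ℕ} (s : Fin r → ℕ) (hs : ∀ i, s i ≤ m)
    (A : ∀ i, Matrix (Fin (s i)) (Fin (s i)) (MvPolynomial (V ⊕ Ya) F))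
    (hA : ∀ i p q, ∀ μ ∈ (A i p q).support, ∑ e, μ (Sum.inl e) ≤ 1) (μ : (V ⊕ Ya) →₀ ℕ)
    (hμ : μ ∈ (∑ i, (A i).det).support) : ∑ e, μ (Sum.inl e) ≤ m := by
  classical
  rw [mem_support_iff, coeff_sum] at hμ
  obtain ⟨i, -, hi⟩ := Finset.exists_ne_zero_of_sum_ne_zero hμ
  exact (deg_det (A i) (hA i) μ (mem_support_iff.2 hi)).trans (hs i)

end

section
variable {F : Type} [Field F] {Ya : Type} {n : ℕ}

/-- `f` with `x e = 0` for the pairs `e` which are not edges of `G` -/
noncomputable def restrictG (G : SimpleGraph (Fin n)) (f : MvPolynomial (Sym2 (Fin n) ⊕ Ya) F) :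
    MvPolynomial (Sym2 (Fin n) ⊕ Ya) F :=
  open Classical in
  aeval (Sum.elim (fun e => if e ∈ G.edgeSet then X (Sum.inl e) else 0) (fun y => X (Sum.inr y))) f

/-- the pairs which are not loops -/
def ND (n : ℕ) : Finset (Sym2 (Fin n)) := Finset.univ.filter fun e => ¬ e.IsDiag

theorem restr_ND (f : MvPolynomial (Sym2 (Fin n) ⊕ Ya) F) (S : Finset (Sym2 (Fin n))) :
    restr S (restr (ND n) f) =
      restrictG (SimpleGraph.fromEdgeSet (S : Set (Sym2 (Fin n)))) f := by
  classical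
  rw [restr_restr, restr, restrictG]
  congr 2
  funext v
  rcases v with e | y
  · rw [Sum.elim_inl, Sum.elim_inl]
    have h : e ∈ S ∩ ND n ↔
        e ∈ (SimpleGraph.fromEdgeSet (S : Set (Sym2 (Fin n)))).edgeSet := by
      rw [SimpleGraph.edgeSet_fromEdgeSet, Finset.mem_inter, ND, Finset.mem_filter]
      simp
    by_cases h1 : e ∈ S ∩ ND n
    · rw [if_pos h1, if_pos (h.1 h1)]
    · rw [if_neg h1, if_neg (fun h2 => h1 (h.2 h2))]
  · rfl

/-- reduction to loop-free polynomials: everything the machine needs -/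
theorem loopfree (P : SimpleGraph (Fin n) → Prop) (f : MvPolynomial (Sym2 (Fin n) ⊕ Ya) F)
    (hml : ∀ μ ∈ f.support, ∀ e, μ (Sum.inl e) ≤ 1)
    (hP : ∀ G : SimpleGraph (Fin n), restrictG G f ≠ 0 ↔ P G)
    {r : ℕ} (s : Fin r → ℕ)
    (A : ∀ i, Matrix (Fin (s i)) (Fin (s i)) (MvPolynomial (Sym2 (Fin n) ⊕ Ya) F))
    (hA : ∀ i p q, ∀ μ ∈ (A i p q).support, ∑ e, μ (Sum.inl e) ≤ 1)
    (hf : f = ∑ i, (A i).det) :
    ∃ (f' : MvPolynomial (Sym2 (Fin n) ⊕ Ya) F)
      (A' : ∀ i, Matrix (Fin (s i)) (Fin (s i)) (MvPolynomial (Sym2 (Fin n) ⊕ Ya) F)),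
      (∀ μ ∈ f'.support, ∀ e, μ (Sum.inl e) ≤ 1) ∧
      (∀ S : Finset (Sym2 (Fin n)), restr S f' ≠ 0 ↔
        P (SimpleGraph.fromEdgeSet (S : Set (Sym2 (Fin n))))) ∧
      (∀ i p q, ∀ μ ∈ (A' i p q).support, ∑ e, μ (Sum.inl e) ≤ 1) ∧
      f' = ∑ i, (A' i).det := by
  classical
  refine ⟨restr (ND n) f, fun i => (A i).map (restrHom F Ya (ND n)), ?_, ?_, ?_, ?_⟩
  · intro μ hμ e
    exact hml μ (support_restr _ _ hμ) e
  · intro S
    rw [restr_ND, hP]
  · intro i p q μ hμ
    have hμ' : μ ∈ (restr (ND n) (A i p q)).support := hμ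
    exact hA i p q μ (support_restr _ _ hμ')
  · rw [← restrHom_apply, hf, map_sum]
    refine Finset.sum_congr rfl fun i _ => ?_
    rw [AlgHom.map_det]
    rfl

end

end Pool.Agent.Helper76.CDET
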