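import Pool.Agent.Helper76.CDET.GadB
import Pool.Agent.Helper76.CDET.Loop

/-!
Determinant sums for clique tests (MP_b6562f_lc): the inequality from gadget B, and the degree of
a test.
-/

set_option autoImplicit false
set_option linter.unusedSectionVars false

namespace Pool.Agent.Helper76.CDET

open Finset MvPolynomial

variable {F : Type} [Field F] {Ya : Type} {n : ℕ}

/-- the two forms of the property -/
theorem PC_iff (k : ℕ) (S : Finset (Sym2 (Fin n))) :
    PC n k S ↔ ∃ C : Finset (Fin n),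
      (SimpleGraph.fromEdgeSet (S : Set (Sym2 (Fin n)))).IsNClique k C := by
  constructor
  · rintro ⟨C, hC, h⟩
    refine ⟨C, ?_⟩
    rw [SimpleGraph.isNClique_iff, SimpleGraph.isClique_iff]
    refine ⟨?_, hC⟩
    intro u hu v hv hne
    rw [SimpleGraph.fromEdgeSet_adj]
    exact ⟨h u hu v hv hne, hne⟩
  · rintro ⟨C, hC⟩
    rw [SimpleGraph.isNClique_iff, SimpleGraph.isClique_iff] at hC
    refine ⟨C, hC.2, fun u hu v hv hne => ?_⟩
    have h := hC.1 hu hv hne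
    rw [SimpleGraph.fromEdgeSet_adj] at h
    exact h.1

/-- gadget B -/
theorem gadB_real {k : ℕ} (hk2 : 2 ≤ k) (f : MvPolynomial (Sym2 (Fin n) ⊕ Ya) F)
    (hml : ∀ μ ∈ f.support, ∀ e, μ (Sum.inl e) ≤ 1)
    (hP : ∀ S : Finset (Sym2 (Fin n)), restr S f ≠ 0 ↔ PC n k S)
    {r m : ℕ} (s : Fin r → ℕ) (hs : ∀ i, s i ≤ m)
    (A : ∀ i, Matrix (Fin (s i)) (Fin (s i)) (MvPolynomial (Sym2 (Fin n) ⊕ Ya) F))
    (hA : ∀ i p q, ∀ μ ∈ (A i p q).support, ∑ e, μ (Sum.inl e) ≤ 1)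
    (hf : f = ∑ i, (A i).det)
    (D l L R : ℕ) (h1 : 2 * D * (1 + l * L) + R ≤ k) (h2 : 2 * D * (2 ^ l - 1 + l * L) ≤ n - k)
    (hkn : k ≤ n) (hDm : D < m) (q : ℝ) (hq0 : 0 < q) (hq1 : q < 1) :
    (2 - q ^ (L * R)) ^ (2 * D * l) ≤ r *
      (∑ j ∈ Finset.range (D + 1), (Nat.choose (m - D - 1 + j) j : ℝ) * (1 - q) ^ j) ^ 2 := by
  classical
  obtain ⟨R', hR'⟩ : ∃ R', R' = k - 2 * D * (1 + l * L) := ⟨_, rfl⟩
  have hRR : R ≤ R' := by omega
  have hk : k = 2 * D * (1 + l * L) + R' := by omega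
  have hpos : 1 ≤ 2 ^ l := Nat.one_le_two_pow
  have hcard : Fintype.card (VB D l L R') ≤ Fintype.card (Fin n) := by
    rw [card_VB, Fintype.card_fin]
    have h3 : 2 * D * (2 ^ l + 2 * l * L) = 2 * D * (1 + l * L) + 2 * D * (2 ^ l - 1 + l * L) := by
      rw [← mul_add]
      congr 1
      have : 2 * l * L = l * L + l * L := by ring
      omega
    omega
  obtain ⟨ι⟩ := Function.Embedding.nonempty_of_card_le hcard
  have hmain := machine_bits_real (B := L * R') f hml (PC n k) hP (XB ι) (YB ι) (ZB ι) (injB ι)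
    (XB_notMem ι) (YB_notMem ι) (fun c S hS hsub => gadB_one ι hk hk2 c S hS hsub)
    (fun c => gadB_two ι hk c) s hs A hA hf hDm q hq0 hq1
  refine le_trans ?_ hmain
  have h4 : q ^ (L * R') ≤ q ^ (L * R) :=
    pow_le_pow_of_le_one hq0.le hq1.le (Nat.mul_le_mul_left L hRR)
  have h5 : q ^ (L * R) ≤ 1 := pow_le_one₀ hq0.le hq1.le
  gcongr
  linarith

/-- the degree of a test -/
theorem deg_test {k : ℕ} (hkn : k ≤ n) (f : MvPolynomial (Sym2 (Fin n) ⊕ Ya) F)
    (hml : ∀ μ ∈ f.support, ∀ e, μ (Sum.inl e) ≤ 1)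
    (hP : ∀ S : Finset (Sym2 (Fin n)), restr S f ≠ 0 ↔ PC n k S)
    {r m : ℕ} (s : Fin r → ℕ) (hs : ∀ i, s i ≤ m)
    (A : ∀ i, Matrix (Fin (s i)) (Fin (s i)) (MvPolynomial (Sym2 (Fin n) ⊕ Ya) F))
    (hA : ∀ i p q, ∀ μ ∈ (A i p q).support, ∑ e, μ (Sum.inl e) ≤ 1)
    (hf : f = ∑ i, (A i).det) : k * (k - 1) ≤ 2 * m := by
  classical
  obtain ⟨C, -, hC⟩ := Finset.exists_subset_card_eq
    (show k ≤ #(Finset.univ : Finset (Fin n)) by simpa using hkn)
  set S : Finset (Sym2 (Fin n)) := C.sym2 with hS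
  have hPS : PC n k S := by
    refine ⟨C, hC, fun u hu v hv _ => ?_⟩
    rw [hS, Finset.mk_mem_sym2_iff]
    exact ⟨hu, hv⟩
  obtain ⟨μ, hμ, hμS⟩ := exists_sup f (PC n k) hP S hPS
  obtain ⟨K, hK, hKe⟩ := prop_sup f (PC n k) hP μ hμ
  have h1 : #(Finset.offDiag K) ≤ 2 * #(sup μ) := by
    have h2 : ∀ e ∈ sup μ, #(K.offDiag.filter fun p => s(p.1, p.2) = e) ≤ 2 := by
      intro e _
      induction e using Sym2.ind with
      | _ u v =>
        have h3 : (K.offDiag.filter fun p => s(p.1, p.2) = s(u, v)) ⊆ {(u, v), (v, u)} := by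
          intro p hp
          rw [Finset.mem_filter, Sym2.eq_iff] at hp
          rw [Finset.mem_insert, Finset.mem_singleton]
          rcases hp.2 with ⟨h4, h5⟩ | ⟨h4, h5⟩
          · exact Or.inl (Prod.ext h4 h5)
          · exact Or.inr (Prod.ext h4 h5)
        exact (Finset.card_le_card h3).trans Finset.card_le_two
    exact Finset.card_le_mul_card_image_of_maps_to (f := fun p : Fin n × Fin n => s(p.1, p.2))
      (fun p hp => by
        rw [Finset.mem_offDiag] at hp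
        exact hKe _ hp.1 _ hp.2.1 hp.2.2) 2 h2
  have h5 : #(sup μ) ≤ ∑ e, μ (Sum.inl e) := by
    rw [sup, Finset.card_filter]
    refine Finset.sum_le_sum fun e _ => ?_
    split_ifs with h6
    · omega
    · exact Nat.zero_le _
  have h7 := deg_sum_det s hs A hA μ (hf ▸ hμ)
  rw [Finset.offDiag_card, hK] at h1
  have h8 : k * (k - 1) = k * k - k := by
    rw [Nat.mul_sub, mul_one]
  omega

end Pool.Agent.Helper76.CDET
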