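import Pool.Agent.Helper76.CDET.Real

/-!
Determinant sums for clique tests (MP_b6562f_lc): gadget B (binary words, digit vertices and
common vertices).
-/

set_option autoImplicit false
set_option linter.unusedSectionVars false

namespace Pool.Agent.Helper76.CDET

open Finset

/-- half blocks -/
abbrev Hb (D : ℕ) := Fin D × Bool

/-- vertices: choice vertices, digit vertices, common vertices -/
abbrev VB (D l Lw R : ℕ) :=
  (Hb D × (Fin l → Bool)) ⊕ (((Hb D × Fin l) × (Fin Lw × Bool)) ⊕ Fin R)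

/-- classes of vertices -/
abbrev CB (D l Lw R : ℕ) := Hb D ⊕ (((Hb D × Fin l) × Fin Lw) ⊕ Fin R)

variable {D l Lw R n : ℕ}

/-- adjacency of different vertices in the gadget -/
def compat : VB D l Lw R → VB D l Lw R → Prop
  | Sum.inl (h, _), Sum.inl (h', _) => h ≠ h'
  | Sum.inl (h, a), Sum.inr (Sum.inl ((h', i), (_, e))) => h = h' → a i = e
  | Sum.inr (Sum.inl ((h', i), (_, e))), Sum.inl (h, a) => h = h' → a i = e
  | Sum.inr (Sum.inl (p, (j, _))), Sum.inr (Sum.inl (p', (j', _))) => (p, j) ≠ (p', j')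
  | _, _ => True

/-- class of a vertex -/
def cls : VB D l Lw R → CB D l Lw R
  | Sum.inl (h, _) => Sum.inl h
  | Sum.inr (Sum.inl (p, (j, _))) => Sum.inr (Sum.inl (p, j))
  | Sum.inr (Sum.inr t) => Sum.inr (Sum.inr t)

theorem compat_symm {x y : VB D l Lw R} (h : compat x y) : compat y x := by
  rcases x with ⟨h1, a⟩ | ⟨⟨h1, i⟩, ⟨j, e⟩⟩ | t <;> rcases y with ⟨h2, a2⟩ | ⟨⟨h2, i2⟩, ⟨j2, e2⟩⟩ | t2 <;>
    simp only [compat] at h ⊢
  · exact fun h3 => h h3.symm
  · exact h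
  · exact h
  · exact fun h3 => h h3.symm

theorem cls_ne {x y : VB D l Lw R} (hne : x ≠ y) (h : compat x y) : cls x ≠ cls y := by
  rcases x with ⟨h1, a⟩ | ⟨⟨h1, i⟩, ⟨j, e⟩⟩ | t <;> rcases y with ⟨h2, a2⟩ | ⟨⟨h2, i2⟩, ⟨j2, e2⟩⟩ | t2 <;>
    simp only [compat, cls] at h ⊢
  · intro h3; exact h (Sum.inl_injective h3)
  · simp
  · simp
  · simp
  · intro h3; exact h (Sum.inl_injective (Sum.inr_injective h3))
  · simp
  · simp
  · simp
  · intro h3
    apply hne
    rw [Sum.inr_injective (Sum.inr_injective h3)]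

/-- the vertex is in the clique of the choice `c` -/
def inB (c : Hb D → Fin l → Bool) : VB D l Lw R → Prop
  | Sum.inl (h, a) => a = c h
  | Sum.inr (Sum.inl ((h, i), (_, e))) => e = c h i
  | Sum.inr (Sum.inr _) => True

theorem compat_of_inB {c : Hb D → Fin l → Bool} {x y : VB D l Lw R} (hne : x ≠ y)
    (hx : inB c x) (hy : inB c y) : compat x y := by
  rcases x with ⟨h1, a⟩ | ⟨⟨h1, i⟩, ⟨j, e⟩⟩ | t <;> rcases y with ⟨h2, a2⟩ | ⟨⟨h2, i2⟩, ⟨j2, e2⟩⟩ | t2 <;>
    simp only [compat, inB] at hx hy ⊢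
  · rintro rfl
    exact hne (by rw [hx, hy])
  · rintro rfl
    rw [hx, hy]
  · rintro rfl
    rw [hx, hy]
  · intro h3
    apply hne
    simp only [Prod.mk.injEq] at h3
    obtain ⟨⟨rfl, rfl⟩, rfl⟩ := h3
    rw [hx, hy]

/-- the vertex of the choice in a class -/
def repB (c : Hb D → Fin l → Bool) : CB D l Lw R → VB D l Lw R
  | Sum.inl h => Sum.inl (h, c h)
  | Sum.inr (Sum.inl ((h, i), j)) => Sum.inr (Sum.inl ((h, i), (j, c h i)))
  | Sum.inr (Sum.inr t) => Sum.inr (Sum.inr t)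

theorem cls_repB (c : Hb D → Fin l → Bool) (q : CB D l Lw R) : cls (repB c q) = q := by
  rcases q with h | ⟨⟨h, i⟩, j⟩ | t <;> rfl

theorem inB_repB (c : Hb D → Fin l → Bool) (q : CB D l Lw R) : inB c (repB c q) := by
  rcases q with h | ⟨⟨h, i⟩, j⟩ | t
  · exact rfl
  · exact rfl
  · trivial

theorem card_CB : Fintype.card (CB D l Lw R) = 2 * D * (1 + l * Lw) + R := by
  simp only [Fintype.card_sum, Fintype.card_prod, Fintype.card_fin, Fintype.card_bool]
  ring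

theorem card_VB : Fintype.card (VB D l Lw R) = 2 * D * (2 ^ l + 2 * l * Lw) + R := by
  simp only [Fintype.card_sum, Fintype.card_prod, Fintype.card_fin, Fintype.card_bool,
    Fintype.card_fun]
  ring

/-- the edge between two vertices -/
def ed (ι : VB D l Lw R ↪ Fin n) (x y : VB D l Lw R) : Sym2 (Fin n) := s(ι x, ι y)

theorem ed_eq (ι : VB D l Lw R ↪ Fin n) {x y x' y' : VB D l Lw R} :
    ed ι x y = ed ι x' y' ↔ (x = x' ∧ y = y') ∨ (x = y' ∧ y = x') := by
  rw [ed, ed, Sym2.eq_iff]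
  simp

/-- alive edges -/
def XB (ι : VB D l Lw R ↪ Fin n) (x : ((Fin D × Bool) × Fin l) × (Bool × Fin (Lw * R))) :
    Sym2 (Fin n) :=
  ed ι (Sum.inr (Sum.inl (x.1, ((finProdFinEquiv.symm x.2.2).1, x.2.1))))
    (Sum.inr (Sum.inr (finProdFinEquiv.symm x.2.2).2))

/-- derivative edges -/
def YB (ι : VB D l Lw R ↪ Fin n) (y : Fin D × (Fin l → Bool) × (Fin l → Bool)) :
    Sym2 (Fin n) :=
  ed ι (Sum.inl ((y.1, false), y.2.1)) (Sum.inl ((y.1, true), y.2.2))

theorem injB (ι : VB D l Lw R ↪ Fin n) :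
    Function.Injective (Sum.elim (XB ι) (YB ι)) := by
  rintro (x | y) (x' | y') h
  · simp only [Sum.elim_inl, XB] at h
    rcases (ed_eq ι).1 h with ⟨h1, h2⟩ | ⟨h1, h2⟩
    · have h3 := Sum.inl_injective (Sum.inr_injective h1)
      have h4 := Sum.inr_injective (Sum.inr_injective h2)
      obtain ⟨h5, h67⟩ := Prod.mk.inj h3
      obtain ⟨h6, h7⟩ := Prod.mk.inj h67
      have h8 : x.2.2 = x'.2.2 := finProdFinEquiv.symm.injective (Prod.ext h6 h4)
      rw [show x = x' from Prod.ext h5 (Prod.ext h7 h8)]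
    · simp at h1
  · simp only [Sum.elim_inl, Sum.elim_inr, XB, YB] at h
    rcases (ed_eq ι).1 h with ⟨h1, h2⟩ | ⟨h1, h2⟩
    · simp at h1
    · simp at h1
  · simp only [Sum.elim_inl, Sum.elim_inr, XB, YB] at h
    rcases (ed_eq ι).1 h with ⟨h1, h2⟩ | ⟨h1, h2⟩
    · simp at h1
    · simp at h1
  · simp only [Sum.elim_inr, YB] at h
    rcases (ed_eq ι).1 h with ⟨h1, h2⟩ | ⟨h1, h2⟩
    · have h3 := Sum.inl_injective h1
      have h4 := Sum.inl_injective h2
      simp only [Prod.mk.injEq, and_true] at h3 h4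
      rw [show y = y' from Prod.ext h3.1 (Prod.ext h3.2 h4.2)]
    · have h3 := Sum.inl_injective h1
      simp at h3

/-- free edges -/
noncomputable def ZB (ι : VB D l Lw R ↪ Fin n) : Finset (Sym2 (Fin n)) :=
  open Classical in
  ((Finset.univ.filter fun p : VB D l Lw R × VB D l Lw R => p.1 ≠ p.2 ∧ compat p.1 p.2).image
    fun p => ed ι p.1 p.2) \ (Finset.univ.image (XB ι) ∪ Finset.univ.image (YB ι))

theorem XB_notMem (ι : VB D l Lw R ↪ Fin n) (x) : XB ι x ∉ ZB ι := by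
  classical
  rw [ZB, Finset.mem_sdiff]
  rintro ⟨-, h⟩
  exact h (Finset.mem_union_left _ (Finset.mem_image_of_mem _ (Finset.mem_univ _)))

theorem YB_notMem (ι : VB D l Lw R ↪ Fin n) (y) : YB ι y ∉ ZB ι := by
  classical
  rw [ZB, Finset.mem_sdiff]
  rintro ⟨-, h⟩
  exact h (Finset.mem_union_right _ (Finset.mem_image_of_mem _ (Finset.mem_univ _)))

theorem mem_ZB (ι : VB D l Lw R ↪ Fin n) (e : Sym2 (Fin n)) (h : e ∈ ZB ι) :
    ∃ x y, x ≠ y ∧ compat x y ∧ e = ed ι x y := by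
  classical
  rw [ZB, Finset.mem_sdiff, Finset.mem_image] at h
  obtain ⟨⟨p, hp, rfl⟩, -⟩ := h
  rw [Finset.mem_filter] at hp
  exact ⟨p.1, p.2, hp.2.1, hp.2.2, rfl⟩

theorem mem_ZB_of (ι : VB D l Lw R ↪ Fin n) (x y : VB D l Lw R) (hne : x ≠ y)
    (h : compat x y) (hX : ∀ z, ed ι x y ≠ XB ι z) (hY : ∀ z, ed ι x y ≠ YB ι z) :
    ed ι x y ∈ ZB ι := by
  classical
  rw [ZB, Finset.mem_sdiff, Finset.mem_image]
  refine ⟨⟨(x, y), Finset.mem_filter.2 ⟨Finset.mem_univ _, hne, h⟩, rfl⟩, ?_⟩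
  rw [Finset.mem_union, Finset.mem_image, Finset.mem_image]
  rintro (⟨z, -, hz⟩ | ⟨z, -, hz⟩)
  · exact hX z hz.symm
  · exact hY z hz.symm

/-- the property: the graph with these edges contains a clique with `k` vertices -/
def PC (n k : ℕ) (S : Finset (Sym2 (Fin n))) : Prop :=
  ∃ C : Finset (Fin n), #C = k ∧ ∀ u ∈ C, ∀ v ∈ C, u ≠ v → s(u, v) ∈ S

/-- (i) -/
theorem gadB_one (ι : VB D l Lw R ↪ Fin n) {k : ℕ} (hk : k = 2 * D * (1 + l * Lw) + R) (hk2 : 2 ≤ k)
    (c : Fin D × Bool → Fin l → Bool) (S : Finset (Sym2 (Fin n))) (hS : PC n k S)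
    (hsub : ∀ e ∈ S, e ∈ ZB ι ∨ (∃ x, e = XB ι x) ∨ ∃ b, e = YB ι (b, c (b, false), c (b, true))) :
    (∀ h i j, XB ι ((h, i), (c h i, j)) ∈ S) ∧ ∀ b, YB ι (b, c (b, false), c (b, true)) ∈ S := by
  classical
  obtain ⟨K, hKk, hK⟩ := hS
  -- every edge is an edge of the gadget
  have hform : ∀ e ∈ S, ∃ x y, x ≠ y ∧ compat x y ∧ e = ed ι x y := by
    intro e he
    rcases hsub e he with h | ⟨x, rfl⟩ | ⟨b, rfl⟩
    · exact mem_ZB ι e h
    · refine ⟨_, _, ?_, ?_, rfl⟩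
      · simp
      · simp only [compat]
    · refine ⟨_, _, ?_, ?_, rfl⟩
      · simp
      · simp only [compat]
        simp
  -- the clique is in the range
  have hrange : ∀ u ∈ K, ∃ x, ι x = u := by
    intro u hu
    have h1 : ∃ v ∈ K, v ≠ u := by
      by_contra h
      push Not at h
      have h2 : K ⊆ {u} := fun v hv => Finset.mem_singleton.2 (h v hv)
      have h3 := Finset.card_le_card h2
      rw [hKk, Finset.card_singleton] at h3
      omega
    obtain ⟨v, hv, hvu⟩ := h1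
    obtain ⟨x, y, -, -, hxy⟩ := hform _ (hK u hu v hv hvu.symm)
    rw [ed, Sym2.eq_iff] at hxy
    rcases hxy with ⟨h1, -⟩ | ⟨h1, -⟩
    · exact ⟨x, h1.symm⟩
    · exact ⟨y, h1.symm⟩
  let K' : Finset (VB D l Lw R) := Finset.univ.filter fun x => ι x ∈ K
  have hmem : ∀ x, x ∈ K' ↔ ι x ∈ K := fun x => by simp [K']
  have hcard : #K' = k := by
    rw [← hKk, ← Finset.card_map ι]
    congr 1
    ext u
    rw [Finset.mem_map]
    constructor
    · rintro ⟨x, hx, rfl⟩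
      exact (hmem x).1 hx
    · intro hu
      obtain ⟨x, rfl⟩ := hrange u hu
      exact ⟨x, (hmem x).2 hu, rfl⟩
  have hedge : ∀ x ∈ K', ∀ y ∈ K', x ≠ y → ed ι x y ∈ S := by
    intro x hx y hy hne
    exact hK _ ((hmem x).1 hx) _ ((hmem y).1 hy) fun h => hne (ι.injective h)
  have hcompat : ∀ x ∈ K', ∀ y ∈ K', x ≠ y → compat x y := by
    intro x hx y hy hne
    obtain ⟨x', y', hne', hc, he⟩ := hform _ (hedge x hx y hy hne)
    rcases (ed_eq ι).1 he with ⟨rfl, rfl⟩ | ⟨rfl, rfl⟩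
    · exact hc
    · exact compat_symm hc
  have hinj : Set.InjOn cls (K' : Set (VB D l Lw R)) := by
    intro x hx y hy h
    by_contra hne
    exact cls_ne hne (hcompat x hx y hy hne) h
  have hsurj : ∀ q, ∃ x ∈ K', cls x = q := by
    have h1 : K'.image cls = Finset.univ := by
      apply Finset.eq_univ_of_card
      rw [Finset.card_image_of_injOn hinj, hcard, card_CB, hk]
    intro q
    have h2 : q ∈ K'.image cls := by rw [h1]; exact Finset.mem_univ _
    obtain ⟨x, hx, hq⟩ := Finset.mem_image.1 h2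
    exact ⟨x, hx, hq⟩
  -- choice vertices
  have hv : ∀ h : Hb D, ∃ a, (Sum.inl (h, a) : VB D l Lw R) ∈ K' := by
    intro h
    obtain ⟨x, hx, hq⟩ := hsurj (Sum.inl h)
    rcases x with ⟨h1, a⟩ | ⟨p, ⟨j, e⟩⟩ | t
    · rw [show h1 = h from Sum.inl_injective hq] at hx
      exact ⟨a, hx⟩
    · simp [cls] at hq
    · simp [cls] at hq
  have hYS : ∀ b, ∃ a a', a = c (b, false) ∧ a' = c (b, true) ∧
      (Sum.inl ((b, false), a) : VB D l Lw R) ∈ K' ∧
      (Sum.inl ((b, true), a') : VB D l Lw R) ∈ K' ∧ YB ι (b, a, a') ∈ S := by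
    intro b
    obtain ⟨a, ha⟩ := hv (b, false)
    obtain ⟨a', ha'⟩ := hv (b, true)
    have h1 : YB ι (b, a, a') ∈ S := hedge _ ha _ ha' (by simp)
    rcases hsub _ h1 with h | ⟨x, h⟩ | ⟨b', h⟩
    · exact absurd h (YB_notMem ι _)
    · have := @injB D l Lw R n ι (Sum.inr (b, a, a')) (Sum.inl x) h
      simp at this
    · have h2 := @injB D l Lw R n ι (Sum.inr (b, a, a')) (Sum.inr _) h
      simp only [Sum.inr.injEq, Prod.mk.injEq] at h2
      obtain ⟨rfl, h3, h4⟩ := h2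
      exact ⟨a, a', h3, h4, ha, ha', h1⟩
  have hvc : ∀ h : Hb D, (Sum.inl (h, c h) : VB D l Lw R) ∈ K' := by
    rintro ⟨b, β⟩
    obtain ⟨a, a', rfl, rfl, ha, ha', -⟩ := hYS b
    cases β
    · exact ha
    · exact ha'
  have hw : ∀ (h : Hb D) (i : Fin l) (j : Fin Lw),
      (Sum.inr (Sum.inl ((h, i), (j, c h i))) : VB D l Lw R) ∈ K' := by
    intro h i j
    obtain ⟨x, hx, hq⟩ := hsurj (Sum.inr (Sum.inl ((h, i), j)))
    rcases x with ⟨h1, a⟩ | ⟨p, ⟨j', e⟩⟩ | t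
    · simp [cls] at hq
    · have h3 := Sum.inl_injective (Sum.inr_injective hq)
      simp only [Prod.mk.injEq] at h3
      obtain ⟨rfl, rfl⟩ := h3
      have h4 := hcompat _ (hvc h) _ hx (by simp)
      simp only [compat] at h4
      rw [h4 trivial]
      exact hx
    · simp [cls] at hq
  have hu : ∀ t : Fin R, (Sum.inr (Sum.inr t) : VB D l Lw R) ∈ K' := by
    intro t
    obtain ⟨x, hx, hq⟩ := hsurj (Sum.inr (Sum.inr t))
    rcases x with ⟨h1, a⟩ | ⟨p, ⟨j', e⟩⟩ | t'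
    · simp [cls] at hq
    · simp [cls] at hq
    · rw [← Sum.inr_injective (Sum.inr_injective hq)]
      exact hx
  constructor
  · intro h i j
    exact hedge _ (hw h i _) _ (hu _) (by simp)
  · intro b
    obtain ⟨a, a', rfl, rfl, -, -, h⟩ := hYS b
    exact h

/-- (ii) -/
theorem gadB_two (ι : VB D l Lw R ↪ Fin n) {k : ℕ} (hk : k = 2 * D * (1 + l * Lw) + R)
    (c : Fin D × Bool → Fin l → Bool) : ∃ S : Finset (Sym2 (Fin n)), PC n k S ∧
      ∀ e ∈ S, e ∈ ZB ι ∨ (∃ h i j, e = XB ι ((h, i), (c h i, j))) ∨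
        ∃ b, e = YB ι (b, c (b, false), c (b, true)) := by
  classical
  refine ⟨(Finset.univ.filter fun p : VB D l Lw R × VB D l Lw R =>
    p.1 ≠ p.2 ∧ inB c p.1 ∧ inB c p.2).image fun p => ed ι p.1 p.2, ?_, ?_⟩
  · refine ⟨(Finset.univ.image (repB (Lw := Lw) (R := R) c)).map ι, ?_, ?_⟩
    · rw [Finset.card_map, Finset.card_image_of_injective _
        (Function.LeftInverse.injective (cls_repB c)), Finset.card_univ, card_CB, hk]
    · intro u hu v hv hne
      rw [Finset.mem_map] at hu hv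
      obtain ⟨x, hx, rfl⟩ := hu
      obtain ⟨y, hy, rfl⟩ := hv
      rw [Finset.mem_image] at hx hy
      obtain ⟨q, -, rfl⟩ := hx
      obtain ⟨q', -, rfl⟩ := hy
      rw [Finset.mem_image]
      exact ⟨(repB c q, repB c q'), Finset.mem_filter.2 ⟨Finset.mem_univ _,
        fun h => hne (by simp only at h; rw [h]), inB_repB c q, inB_repB c q'⟩, rfl⟩
  · intro e he
    rw [Finset.mem_image] at he
    obtain ⟨⟨x, y⟩, hp, rfl⟩ := he
    obtain ⟨-, hne, hx, hy⟩ := Finset.mem_filter.1 hp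
    simp only at hne hx hy ⊢
    by_cases hX : ∃ z, ed ι x y = XB ι z
    · obtain ⟨⟨⟨h, i⟩, ⟨a, j⟩⟩, hz⟩ := hX
      refine Or.inr (Or.inl ⟨h, i, j, ?_⟩)
      rw [hz]
      rw [XB] at hz
      rcases (ed_eq ι).1 hz with ⟨rfl, rfl⟩ | ⟨rfl, rfl⟩
      · have h5 : a = c h i := hx
        rw [h5]
      · have h5 : a = c h i := hy
        rw [h5]
    · by_cases hY : ∃ z, ed ι x y = YB ι z
      · obtain ⟨⟨b, a, a'⟩, hz⟩ := hY
        refine Or.inr (Or.inr ⟨b, ?_⟩)
        rw [hz]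
        rw [YB] at hz
        rcases (ed_eq ι).1 hz with ⟨rfl, rfl⟩ | ⟨rfl, rfl⟩
        · have h5 : a = c (b, false) := hx
          have h6 : a' = c (b, true) := hy
          rw [h5, h6]
        · have h5 : a = c (b, false) := hy
          have h6 : a' = c (b, true) := hx
          rw [h5, h6]
      · push Not at hX hY
        exact Or.inl (mem_ZB_of ι x y hne (compat_of_inB hne hx hy) hX hY)

end Pool.Agent.Helper76.CDET
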