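import Mathlib

/-!
Determinant sums for tests (MP_b6562f_lc): restriction of a polynomial, with transcendental
constants for the free variables.
-/

set_option autoImplicit false

namespace Pool.Agent.Helper76.CDET

open Finset MvPolynomial
open scoped BigOperators

section
variable {F : Type} [Field F] {V Q : Type}

/-- the field of rational functions in all variables -/
abbrev Lf (F V : Type) [Field F] : Type := FractionRing (MvPolynomial V F)

/-- exponent of the image of a variable: `none` = dead, `some none` = free constant -/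
noncomputable def pv (κ : V → Option (Option Q)) (v : V) : Q →₀ ℕ :=
  match κ v with
  | some (some q) => Finsupp.single q 1
  | _ => 0

/-- coefficient of the image of a variable -/
noncomputable def av (F : Type) [Field F] (κ : V → Option (Option Q)) (v : V) : MvPolynomial V F :=
  match κ v with
  | some (some _) => 1
  | some none => X v
  | none => 0

/-- the restriction map -/
noncomputable def Psi (F : Type) [Field F] (κ : V → Option (Option Q)) :
    MvPolynomial V F →+* MvPolynomial Q (Lf F V) :=
  eval₂Hom (C.comp ((algebraMap (MvPolynomial V F) (Lf F V)).comp C))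
    (fun v => monomial (pv κ v) (algebraMap (MvPolynomial V F) (Lf F V) (av F κ v)))

/-- exponent of the image of a monomial -/
noncomputable def push (κ : V → Option (Option Q)) (μ : V →₀ ℕ) : Q →₀ ℕ :=
  μ.sum fun v n => n • pv κ v

theorem Psi_monomial (κ : V → Option (Option Q)) (μ : V →₀ ℕ) (r : F) :
    Psi F κ (monomial μ r) = monomial (push κ μ)
      (algebraMap (MvPolynomial V F) (Lf F V) (C r * μ.prod fun v n => av F κ v ^ n)) := by
  classical
  rw [Psi, coe_eval₂Hom, eval₂_monomial]
  have h1 : (μ.prod fun v n => (monomial (pv κ v)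
      (algebraMap (MvPolynomial V F) (Lf F V) (av F κ v))) ^ n) =
      monomial (push κ μ) (algebraMap (MvPolynomial V F) (Lf F V)
        (μ.prod fun v n => av F κ v ^ n)) := by
    rw [Finsupp.prod, push, Finsupp.sum, Finsupp.prod, map_prod, monomial_sum_prod]
    refine Finset.prod_congr rfl fun v _ => ?_
    rw [monomial_pow, ← map_pow (algebraMap (MvPolynomial V F) (Lf F V))]
  rw [h1]
  simp [C_mul_monomial]

theorem coeff_Psi (κ : V → Option (Option Q)) (f : MvPolynomial V F) (T : Q →₀ ℕ)
    [DecidableEq Q] :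
    coeff T (Psi F κ f) = algebraMap (MvPolynomial V F) (Lf F V)
      (∑ μ ∈ f.support, if push κ μ = T then
        C (coeff μ f) * μ.prod fun v n => av F κ v ^ n else 0) := by
  conv_lhs => rw [f.as_sum]
  rw [map_sum, coeff_sum, map_sum]
  refine Finset.sum_congr rfl fun μ _ => ?_
  rw [Psi_monomial, coeff_monomial]
  split_ifs <;> simp

/-- free part of an exponent -/
noncomputable def rest (κ : V → Option (Option Q)) (μ : V →₀ ℕ) : V →₀ ℕ :=
  open Classical in μ.filter fun v => κ v = some none

theorem prod_av_of_dead (κ : V → Option (Option Q)) (μ : V →₀ ℕ)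
    (h : ∃ v, κ v = none ∧ μ v ≠ 0) : (μ.prod fun v n => av F κ v ^ n) = 0 := by
  obtain ⟨v, hv, hμ⟩ := h
  refine Finset.prod_eq_zero (Finsupp.mem_support_iff.2 hμ) ?_
  have h1 : av F κ v = 0 := by rw [av, hv]
  simp only
  rw [h1]
  exact zero_pow hμ

theorem prod_av (κ : V → Option (Option Q)) (μ : V →₀ ℕ)
    (h : ∀ v, κ v = none → μ v = 0) :
    (μ.prod fun v n => av F κ v ^ n) = monomial (rest κ μ) 1 := by
  classical
  rw [monomial_eq, C_1, one_mul, rest, Finsupp.prod, Finsupp.prod, Finsupp.support_filter,
    Finset.prod_filter]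
  refine Finset.prod_congr rfl fun v hv => ?_
  rcases hκ : κ v with _ | _ | q
  · exact absurd (h v hκ) (Finsupp.mem_support_iff.1 hv)
  · rw [if_pos rfl, Finsupp.filter_apply_pos (fun v => κ v = some none) _ hκ]
    rw [av, hκ]
  · rw [if_neg (by simp)]
    rw [av, hκ]
    exact one_pow _

/-- a nonzero coefficient comes from a monomial without dead variables -/
theorem exists_of_coeff_Psi_ne_zero (κ : V → Option (Option Q)) (f : MvPolynomial V F)
    (T : Q →₀ ℕ) (h : coeff T (Psi F κ f) ≠ 0) :
    ∃ μ ∈ f.support, (∀ v, κ v = none → μ v = 0) ∧ push κ μ = T := by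
  classical
  rw [coeff_Psi] at h
  have h1 : (∑ μ ∈ f.support, if push κ μ = T then
        C (coeff μ f) * μ.prod fun v n => av F κ v ^ n else 0) ≠ 0 := by
    intro h2
    rw [h2, map_zero] at h
    exact h rfl
  obtain ⟨μ, hμ, hμ2⟩ := Finset.exists_ne_zero_of_sum_ne_zero h1
  refine ⟨μ, hμ, ?_, ?_⟩
  · by_contra h3
    push Not at h3
    rw [prod_av_of_dead κ μ h3] at hμ2
    simp at hμ2
  · by_contra h3
    rw [if_neg h3] at hμ2
    exact hμ2 rfl

/-- a coefficient is nonzero if a monomial contributes and no other monomial has the same image -/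
theorem coeff_Psi_ne_zero (κ : V → Option (Option Q)) (f : MvPolynomial V F)
    (μ₀ : V →₀ ℕ) (h0 : μ₀ ∈ f.support) (hd : ∀ v, κ v = none → μ₀ v = 0)
    (huniq : ∀ μ ∈ f.support, (∀ v, κ v = none → μ v = 0) → push κ μ = push κ μ₀ →
      rest κ μ = rest κ μ₀ → μ = μ₀) :
    coeff (push κ μ₀) (Psi F κ f) ≠ 0 := by
  classical
  rw [coeff_Psi]
  intro h
  have h1 := (IsFractionRing.injective (MvPolynomial V F) (Lf F V)) (h.trans (map_zero _).symm)
  have h2 := congrArg (coeff (rest κ μ₀)) h1
  rw [coeff_sum, coeff_zero, Finset.sum_eq_single μ₀] at h2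
  · rw [if_pos rfl, prod_av κ μ₀ hd, coeff_C_mul, coeff_monomial, if_pos rfl, mul_one] at h2
    exact (mem_support_iff.1 h0) h2
  · intro μ hμ hne
    split_ifs with h3
    · by_cases h4 : ∀ v, κ v = none → μ v = 0
      · rw [prod_av κ μ h4, coeff_C_mul, coeff_monomial, if_neg, mul_zero]
        intro h5
        exact hne (huniq μ hμ h4 h3 h5)
      · push Not at h4
        rw [prod_av_of_dead κ μ h4, mul_zero, coeff_zero]
    · rw [coeff_zero]
  · intro h3
    exact absurd h0 h3

/-- the degree in the variables -/
theorem totalDegree_Psi_le (κ : V → Option (Option Q)) (f : MvPolynomial V F) (d : ℕ)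
    (h : ∀ μ ∈ f.support, (push κ μ).degree ≤ d) : (Psi F κ f).totalDegree ≤ d := by
  classical
  rw [totalDegree, Finset.sup_le_iff]
  intro T hT
  obtain ⟨μ, hμ, -, rfl⟩ := exists_of_coeff_Psi_ne_zero κ f T (mem_support_iff.1 hT)
  exact h μ hμ

end

end Pool.Agent.Helper76.CDET
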