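import Pool.Agent.Helper76.CDET.Deriv
import Pool.Agent.Helper76.CDET.Spec

/-!
Determinant sums for tests (MP_b6562f_lc): the monomial machine, for any test polynomial.
-/

set_option autoImplicit false
set_option linter.unusedSectionVars false

namespace Pool.Agent.Helper76.CDET

open Finset MvPolynomial Pool.SDL Pool.Agent.SDet
open scoped ENNReal BigOperators

section
variable {F : Type} [Field F] {V Ya Xt Yt C : Type} [DecidableEq V]

/-- `f` with the variables outside `S` replaced by `0` -/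
noncomputable def restr (S : Finset V) (f : MvPolynomial (V ⊕ Ya) F) : MvPolynomial (V ⊕ Ya) F :=
  aeval (Sum.elim (fun e => if e ∈ S then X (Sum.inl e) else 0) (fun y => X (Sum.inr y))) f

/-- number of elements of `S` which become the variable `v` -/
noncomputable def cnt {Q : Type} (κ : V → Option (Option Q)) (S : Finset V) (v : Q) : ℕ :=
  open Classical in #(S.filter fun e => κ e = some (some v))

theorem cnt_eq {Q : Type} (κ : V → Option (Option Q)) (S : Finset V) (v : Q)
    [DecidablePred fun e => κ e = some (some v)] :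
    cnt κ S v = #(S.filter fun e => κ e = some (some v)) := by
  unfold cnt
  congr

theorem cnt_mono {Q : Type} (κ : V → Option (Option Q)) {S T : Finset V} (h : S ⊆ T) (v : Q) :
    cnt κ S v ≤ cnt κ T v := by
  classical
  exact Finset.card_le_card (Finset.filter_subset_filter _ h)

theorem cnt_eq_zero {Q : Type} (κ : V → Option (Option Q)) {S : Finset V} {v : Q}
    (h : cnt κ S v = 0) (e : V) (he : e ∈ S) : κ e ≠ some (some v) := by
  classical
  rw [cnt, Finset.card_eq_zero, Finset.filter_eq_empty_iff] at h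
  exact h he

theorem cnt_pos_iff {Q : Type} (κ : V → Option (Option Q)) {S : Finset V} {v : Q} :
    0 < cnt κ S v ↔ ∃ e ∈ S, κ e = some (some v) := by
  classical
  rw [cnt, Finset.card_pos]
  constructor
  · rintro ⟨e, he⟩
    exact ⟨e, (Finset.mem_filter.1 he).1, (Finset.mem_filter.1 he).2⟩
  · rintro ⟨e, he, h⟩
    exact ⟨e, Finset.mem_filter.2 ⟨he, h⟩⟩

/-- `S` has exactly the variables `M` and, once each, the derivative variables `y` -/
def Hits {D : ℕ} (κ : V → Option (Option (Xt ⊕ Yt))) (M : Xt → ℕ) (y : Fin D → Yt)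
    (S : Finset V) : Prop :=
  (∀ x, cnt κ S (Sum.inl x) = M x) ∧ (∀ b, cnt κ S (Sum.inr (y b)) = 1) ∧
    ∀ z, z ∉ Set.range y → cnt κ S (Sum.inr z) = 0

/-- the edges used by a monomial -/
def sup [Fintype V] (μ : (V ⊕ Ya) →₀ ℕ) : Finset V := Finset.univ.filter fun e => μ (Sum.inl e) ≠ 0

/-- a monomial which uses edges outside of `S` is killed by the restriction to `S` -/
theorem restr_monomial_zero [Fintype V] (S : Finset V) (μ : (V ⊕ Ya) →₀ ℕ) (a : F)
    (h : ¬ sup μ ⊆ S) : restr S (monomial μ a) = 0 := by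
  classical
  rw [Finset.not_subset] at h
  obtain ⟨e, he, heS⟩ := h
  rw [restr, aeval_monomial, Finsupp.prod, Finset.prod_eq_zero (i := Sum.inl e), mul_zero]
  · exact Finsupp.mem_support_iff.2 (by simpa [sup] using he)
  · rw [Sum.elim_inl, if_neg heS]
    exact zero_pow (by simpa [sup] using he)

theorem restr_monomial [Fintype V] (S : Finset V) (μ : (V ⊕ Ya) →₀ ℕ) (a : F)
    (h : sup μ ⊆ S) : restr S (monomial μ a) = monomial μ a := by
  classical
  rw [restr, aeval_monomial, algebraMap_eq, monomial_eq, Finsupp.prod, Finsupp.prod]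
  congr 1
  refine Finset.prod_congr rfl fun v hv => ?_
  rcases v with e | y
  · rw [Sum.elim_inl, if_pos]
    apply h
    simpa [sup] using hv
  · rw [Sum.elim_inr]

theorem coeff_restr [Fintype V] (S : Finset V) (f : MvPolynomial (V ⊕ Ya) F)
    (μ : (V ⊕ Ya) →₀ ℕ) : coeff μ (restr S f) = if sup μ ⊆ S then coeff μ f else 0 := by
  classical
  induction f using MvPolynomial.induction_on' with
  | add p q hp hq =>
    have h1 : restr S (p + q) = restr S p + restr S q := by rw [restr, map_add]; rfl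
    rw [h1, coeff_add, hp, hq, coeff_add]
    split_ifs <;> simp
  | monomial n a =>
    by_cases h : sup n ⊆ S
    · rw [restr_monomial S n a h, coeff_monomial]
      split_ifs with h1 h2 h2
      · rfl
      · exact absurd (h1 ▸ h) h2
      · rfl
      · rfl
    · rw [restr_monomial_zero S n a h, coeff_zero, coeff_monomial]
      split_ifs with h1 h2
      · exact absurd (h2 ▸ h1) h
      · rfl
      · rfl

/-- the edge set of every monomial has the property -/
theorem prop_sup [Fintype V] (f : MvPolynomial (V ⊕ Ya) F) (P : Finset V → Prop)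
    (hP : ∀ S, restr S f ≠ 0 ↔ P S) (μ : (V ⊕ Ya) →₀ ℕ) (hμ : μ ∈ f.support) : P (sup μ) := by
  rw [← hP, ne_zero_iff]
  exact ⟨μ, by rw [coeff_restr, if_pos subset_rfl]; exact mem_support_iff.1 hμ⟩

/-- every set with the property contains the edge set of a monomial -/
theorem exists_sup [Fintype V] (f : MvPolynomial (V ⊕ Ya) F) (P : Finset V → Prop)
    (hP : ∀ S, restr S f ≠ 0 ↔ P S) (S : Finset V) (hS : P S) : ∃ μ ∈ f.support, sup μ ⊆ S := by
  rw [← hP, ne_zero_iff] at hS
  obtain ⟨μ, hμ⟩ := hS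
  rw [coeff_restr] at hμ
  split_ifs at hμ with h
  · exact ⟨μ, mem_support_iff.2 hμ, h⟩
  · exact absurd rfl hμ

/-- the extension to the auxiliary variables, which are all free -/
def ext {Q : Type} (Ya : Type) (κ : V → Option (Option Q)) : V ⊕ Ya → Option (Option Q) :=
  Sum.elim κ fun _ => some none

omit [DecidableEq V] in
theorem push_ext [Fintype V] {Q : Type} [DecidableEq Q] (κ : V → Option (Option Q))
    (μ : (V ⊕ Ya) →₀ ℕ) (v : Q) :
    push (ext Ya κ) μ v = ∑ e ∈ Finset.univ.filter (fun e => κ e = some (some v)), μ (Sum.inl e) := by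
  classical
  rw [push, Finsupp.sum, Finsupp.finsetSum_apply]
  have h1 : ∀ x : V ⊕ Ya, (μ x • pv (ext Ya κ) x) v =
      if ext Ya κ x = some (some v) then μ x else 0 := by
    intro x
    rw [Finsupp.smul_apply, pv]
    rcases h : ext Ya κ x with _ | _ | q
    · simp
    · simp
    · simp only [Finsupp.single_apply, smul_eq_mul, Option.some.injEq]
      split_ifs <;> simp
  simp_rw [h1]
  rw [Finset.sum_filter]
  have h2 : ∑ e, (if κ e = some (some v) then μ (Sum.inl e) else 0) =
      ∑ x ∈ Finset.univ.map (Function.Embedding.inl : V ↪ V ⊕ Ya),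
        if ext Ya κ x = some (some v) then μ x else 0 := by
    rw [Finset.sum_map]
    rfl
  rw [h2]
  apply Finset.sum_congr_of_eq_on_inter
  · intro x hx hx'
    rcases x with e | y
    · exact absurd (Finset.mem_map_of_mem _ (Finset.mem_univ e)) hx'
    · simp [ext]
  · intro x hx hx'
    rw [Finsupp.notMem_support_iff.1 hx']
    simp
  · intro x _ _
    rfl

theorem push_ext_cnt [Fintype V] {Q : Type} (κ : V → Option (Option Q))
    (μ : (V ⊕ Ya) →₀ ℕ) (hμ : ∀ e, μ (Sum.inl e) ≤ 1) (v : Q) :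
    push (ext Ya κ) μ v = cnt κ (sup μ) v := by
  classical
  rw [push_ext, cnt, sup, Finset.filter_filter, Finset.card_filter, Finset.sum_filter]
  refine Finset.sum_congr rfl fun e _ => ?_
  have := hμ e
  by_cases h1 : κ e = some (some v) <;> by_cases h2 : μ (Sum.inl e) = 0 <;> simp [h1, h2]
  omega

omit [DecidableEq V] in
theorem degree_push_le [Fintype V] {Q : Type} (κ : V → Option (Option Q))
    (μ : (V ⊕ Ya) →₀ ℕ) : (push (ext Ya κ) μ).degree ≤ ∑ e, μ (Sum.inl e) := by
  classical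
  rw [push, Finsupp.sum, map_sum]
  have h1 : ∀ x : V ⊕ Ya, (μ x • pv (ext Ya κ) x).degree ≤
      Sum.elim (fun e => μ (Sum.inl e)) (fun _ => 0) x := by
    intro x
    rw [map_nsmul, pv]
    rcases x with e | y
    · simp only [ext, Sum.elim_inl]
      rcases h : κ e with _ | _ | q
      · simp
      · simp
      · simp
    · simp [ext]
  refine (Finset.sum_le_sum fun x _ => h1 x).trans ?_
  have h2 : ∑ e, μ (Sum.inl e) = ∑ x ∈ Finset.univ.map (Function.Embedding.inl : V ↪ V ⊕ Ya),
      Sum.elim (fun e => μ (Sum.inl e)) (fun _ => 0) x := by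
    rw [Finset.sum_map]
    rfl
  rw [h2]
  refine Finset.sum_le_sum_of_ne_zero fun x _ hx => ?_
  rcases x with e | y
  · exact Finset.mem_map_of_mem _ (Finset.mem_univ e)
  · exact absurd rfl hx

/-- the target exponent: all `M`, and the derivative variables of `y` -/
noncomputable def tgt {D : ℕ} [Finite Xt] (M : Xt → ℕ) (y : Fin D → Yt) : (Xt ⊕ Yt) →₀ ℕ :=
  Finsupp.mapDomain Sum.inl (Finsupp.equivFunOnFinite.symm M) +
    ∑ b, Finsupp.single (Sum.inr (y b)) 1

theorem tgt_inl {D : ℕ} [Finite Xt] (M : Xt → ℕ) (y : Fin D → Yt) (x : Xt) :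
    tgt M y (Sum.inl x) = M x := by
  classical
  rw [tgt, Finsupp.add_apply, Finsupp.mapDomain_apply Sum.inl_injective, Finsupp.finsetSum_apply,
    Finset.sum_eq_zero, add_zero]
  · rfl
  · intro b _
    simp

theorem tgt_inr {D : ℕ} [Finite Xt] (M : Xt → ℕ) (y : Fin D → Yt)
    (hy : Function.Injective y) (z : Yt) :
    tgt M y (Sum.inr z) = open Classical in if z ∈ Set.range y then 1 else 0 := by
  classical
  rw [tgt, Finsupp.add_apply, Finsupp.mapDomain_of_notMem_range _ _ (by simp),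
    Finsupp.finsetSum_apply, zero_add]
  split_ifs with h
  · obtain ⟨b, rfl⟩ := h
    rw [Finset.sum_eq_single b]
    · simp
    · intro b' _ hb
      rw [Finsupp.single_apply, if_neg]
      intro h
      exact hb (hy (Sum.inr_injective h))
    · intro h; exact absurd (Finset.mem_univ _) h
  · refine Finset.sum_eq_zero fun b _ => ?_
    rw [Finsupp.single_apply, if_neg]
    intro h'
    exact h ⟨b, Sum.inr_injective h'⟩

theorem hits_of_tgt {D : ℕ} [Finite Xt] (κ : V → Option (Option (Xt ⊕ Yt))) (M : Xt → ℕ)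
    (y : Fin D → Yt) (hy : Function.Injective y) (S : Finset V)
    (h : ∀ v, cnt κ S v = tgt M y v) : Hits κ M y S := by
  refine ⟨fun x => ?_, fun b => ?_, fun z hz => ?_⟩
  · rw [h, tgt_inl]
  · rw [h, tgt_inr _ _ hy, if_pos ⟨b, rfl⟩]
  · rw [h, tgt_inr _ _ hy, if_neg hz]

theorem tgt_of_hits {D : ℕ} [Finite Xt] (κ : V → Option (Option (Xt ⊕ Yt))) (M : Xt → ℕ)
    (y : Fin D → Yt) (hy : Function.Injective y) (S : Finset V)
    (h : Hits κ M y S) : ∀ v, cnt κ S v = tgt M y v := by
  rintro (x | z)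
  · rw [h.1, tgt_inl]
  · rw [tgt_inr _ _ hy]
    split_ifs with h1
    · obtain ⟨b, rfl⟩ := h1
      exact h.2.1 b
    · exact h.2.2 z h1

/-- THE MACHINE. `f` is multilinear in the edge variables `V`; its restriction to `S` is nonzero iff
`S` has the property `P`. -/
theorem machine [Fintype V] [Fintype Xt] [Finite C]
    (f : MvPolynomial (V ⊕ Ya) F) (hml : ∀ μ ∈ f.support, ∀ e, μ (Sum.inl e) ≤ 1)
    (P : Finset V → Prop) (hP : ∀ S, restr S f ≠ 0 ↔ P S)
    (κ : V → Option (Option (Xt ⊕ Yt))) {D : ℕ} (yc : C → Fin D → Yt)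
    (hyc : ∀ c, Function.Injective (yc c)) (M : C → Xt → ℕ) (B : ℕ) (hB : ∀ c, ∑ x, M c x = B)
    (h1 : ∀ c (S : Finset V), P S → (∀ e ∈ S, κ e ≠ none) →
      (∀ e ∈ S, ∀ z, κ e = some (some (Sum.inr z)) → z ∈ Set.range (yc c)) →
      (∀ x, M c x ≤ cnt κ S (Sum.inl x)) ∧ ∀ b, 1 ≤ cnt κ S (Sum.inr (yc c b)))
    (h2 : ∀ c, ∃ S : Finset V, P S ∧ (∀ e ∈ S, κ e ≠ none) ∧ Hits κ (M c) (yc c) S)
    (h3 : ∀ c (S S' : Finset V), P S → P S' → (∀ e ∈ S, κ e ≠ none) → (∀ e ∈ S', κ e ≠ none) →
      Hits κ (M c) (yc c) S → Hits κ (M c) (yc c) S' →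
      (∀ e, κ e = some none → (e ∈ S ↔ e ∈ S')) → S = S')
    {r m : ℕ} (s : Fin r → ℕ) (hs : ∀ i, s i ≤ m)
    (A : ∀ i, Matrix (Fin (s i)) (Fin (s i)) (MvPolynomial (V ⊕ Ya) F))
    (hA : ∀ i p q, ∀ μ ∈ (A i p q).support, ∑ e, μ (Sum.inl e) ≤ 1)
    (hf : f = ∑ i, (A i).det) (Q : ℝ≥0∞) (hQ : Q < 1)
    [DecidablePred fun u : Xt → ℕ => ∃ c, ∀ x, M c x ≤ u x] :
    (1 - Q) ^ Fintype.card Xt *
      ∑' u : Xt → ℕ, (if ∃ c, ∀ x, M c x ≤ u x then Q ^ (∑ x, u x) else 0) ≤
    Q ^ B * (r * (∑ g : Fin (m - D) ↪o Fin m, (1 - Q) ^ rho g) ^ 2) := by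
  classical
  set κ' := ext Ya κ with hκ'
  set G : C → MvPolynomial Xt (Lf F (V ⊕ Ya)) := fun c => Dc (yc c) (Psi F κ' f) with hG
  have hcoeff : ∀ c T, coeff T (G c) = coeff (Finsupp.mapDomain Sum.inl T +
      ∑ b, Finsupp.single (Sum.inr (yc c b)) 1) (Psi F κ' f) := fun c T =>
    coeff_Dc (yc c) (hyc c) _ T
  have hdead : ∀ μ : (V ⊕ Ya) →₀ ℕ, (∀ v, κ' v = none → μ v = 0) ↔ ∀ e ∈ sup μ, κ e ≠ none := by
    intro μ
    constructor
    · intro h e he hκ
      exact (by simpa [sup] using he : μ (Sum.inl e) ≠ 0) (h (Sum.inl e) hκ)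
    · intro h v hv
      rcases v with e | y
      · by_contra h4
        exact h e (by simpa [sup] using h4) hv
      · exact absurd hv (by simp [hκ', ext])
  -- the determinants
  have hmat : ∀ i, ∃ A' : Matrix (Fin m) (Fin m) (MvPolynomial (Xt ⊕ Yt) (Lf F (V ⊕ Ya))),
      (∀ p q, (A' p q).totalDegree ≤ 1) ∧ A'.det = Psi F κ' (A i).det := by
    intro i
    rw [RingHom.map_det]
    refine exists_pad (hs i) _ fun p q => ?_
    rw [RingHom.mapMatrix_apply, Matrix.map_apply]
    exact totalDegree_Psi_le κ' _ 1 fun μ hμ => (degree_push_le κ μ).trans (hA i p q μ hμ)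
  choose A' hA' hdet using hmat
  have hL : ∀ c, G c ∈ ⨆ i, detSpan ((A' i).map (eps0 (Lf F (V ⊕ Ya)) Xt Yt)) (m - D) := by
    intro c
    rw [hG]
    simp only
    rw [hf, map_sum, Dc_sum]
    refine Submodule.sum_mem _ fun i _ => ?_
    rw [← hdet i]
    exact Submodule.mem_iSup_of_mem i (Dc_det_mem (yc c) (A' i) (hA' i))
  have hAff : ∀ i p q, (((A' i).map (eps0 (Lf F (V ⊕ Ya)) Xt Yt)) p q).totalDegree ≤ 1 := by
    intro i p q
    rw [Matrix.map_apply]
    exact (eps0_totalDegree _).trans (hA' i p q)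
  have hMdeg : ∀ c, (Finsupp.equivFunOnFinite.symm (M c) : Xt →₀ ℕ).degree = B := by
    intro c
    rw [Finsupp.degree_eq_sum]
    exact hB c
  have hlow : ∀ c T, coeff T (G c) ≠ 0 → (Finsupp.equivFunOnFinite.symm (M c) : Xt →₀ ℕ) ≤ T := by
    intro c T hT
    rw [hcoeff] at hT
    obtain ⟨μ, hμ, hμd, hμp⟩ := exists_of_coeff_Psi_ne_zero κ' f _ hT
    have hS := prop_sup f P hP μ hμ
    have hT' : Finsupp.mapDomain Sum.inl T + ∑ b, Finsupp.single (Sum.inr (yc c b)) 1 =
        tgt (fun x => T x) (yc c) := by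
      rw [tgt]
      congr 2
      ext x
      rfl
    have hcn : ∀ v, cnt κ (sup μ) v = tgt (fun x => T x) (yc c) v := by
      intro v
      rw [← push_ext_cnt κ μ (hml μ hμ) v, ← hκ', hμp, hT']
    have hh := hits_of_tgt κ _ (yc c) (hyc c) (sup μ) hcn
    have h4 := h1 c (sup μ) hS ((hdead μ).1 hμd) (by
      intro e he z hz
      by_contra hzr
      exact cnt_eq_zero κ (hh.2.2 z hzr) e he hz)
    intro x
    have h5 := h4.1 x
    rw [hh.1] at h5
    exact h5
  have hself : ∀ c, coeff (Finsupp.equivFunOnFinite.symm (M c) : Xt →₀ ℕ) (G c) ≠ 0 := by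
    intro c
    rw [hcoeff]
    obtain ⟨S, hS, hSd, hSh⟩ := h2 c
    obtain ⟨μ, hμ, hμS⟩ := exists_sup f P hP S hS
    have hPμ := prop_sup f P hP μ hμ
    have hmono : ∀ v, cnt κ (sup μ) v ≤ cnt κ S v := fun v => cnt_mono κ hμS v
    have hdμ : ∀ e ∈ sup μ, κ e ≠ none := fun e he => hSd e (hμS he)
    have h4 := h1 c (sup μ) hPμ hdμ (by
      intro e he z hz
      by_contra hzr
      exact cnt_eq_zero κ (hSh.2.2 z hzr) e (hμS he) hz)
    have hh : Hits κ (M c) (yc c) (sup μ) := by
      refine ⟨fun x => le_antisymm ((hmono _).trans (hSh.1 x).le) (h4.1 x), fun b =>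
        le_antisymm ((hmono _).trans (hSh.2.1 b).le) (h4.2 b), fun z hz => ?_⟩
      have := (hmono (Sum.inr z)).trans (hSh.2.2 z hz).le
      omega
    have htgt : push κ' μ = tgt (M c) (yc c) := by
      ext v
      rw [hκ', push_ext_cnt κ μ (hml μ hμ), tgt_of_hits κ _ _ (hyc c) _ hh]
    have h5 := coeff_Psi_ne_zero κ' f μ hμ ((hdead μ).2 hdμ) (by
      intro μ' hμ' hd' hp' hr'
      have hPμ' := prop_sup f P hP μ' hμ'
      have hc' : ∀ v, cnt κ (sup μ') v = tgt (M c) (yc c) v := by
        intro v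
        rw [← push_ext_cnt κ μ' (hml μ' hμ') v, ← hκ', hp', htgt]
      have hSS : sup μ' = sup μ := by
        refine h3 c _ _ hPμ' hPμ ((hdead μ').1 hd') hdμ (hits_of_tgt κ _ _ (hyc c) _ hc') hh ?_
        intro e he
        have h6 := DFunLike.congr_fun hr' (Sum.inl e)
        rw [rest, rest, Finsupp.filter_apply_pos (fun v => κ' v = some none) _
          (by simpa [hκ', ext] using he), Finsupp.filter_apply_pos (fun v => κ' v = some none) _
          (by simpa [hκ', ext] using he)] at h6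
        simp [sup, h6]
      ext v
      rcases v with e | y
      · have h6 := hml μ hμ e
        have h7 := hml μ' hμ' e
        have h8 : e ∈ sup μ' ↔ e ∈ sup μ := by rw [hSS]
        simp only [sup, Finset.mem_filter, Finset.mem_univ, true_and] at h8
        omega
      · have h6 := DFunLike.congr_fun hr' (Sum.inr y)
        rw [rest, rest, Finsupp.filter_apply_pos (fun v => κ' v = some none) _
            (by simp [hκ', ext]), Finsupp.filter_apply_pos (fun v => κ' v = some none) _
            (by simp [hκ', ext])] at h6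
        exact h6)
    rw [htgt, tgt] at h5
    exact h5
  have hmain := compare G (fun c => (Finsupp.equivFunOnFinite.symm (M c) : Xt →₀ ℕ)) B hMdeg
    hlow hself _ hAff hL Q hQ
  refine le_trans (le_of_eq ?_) hmain
  congr 1
  refine tsum_congr fun u => ?_
  by_cases h : ∃ c, ∀ x, M c x ≤ u x
  · rw [if_pos h, if_pos (by exact h)]
  · rw [if_neg h, if_neg (by exact h)]

omit [DecidableEq V] in
/-- uniqueness is automatic if the map to the variables is injective -/
theorem uniq_of_injective [Fintype V] {Q : Type} (κ : V → Option (Option Q))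
    (hκ : ∀ e e' v, κ e = some (some v) → κ e' = some (some v) → e = e') (S S' : Finset V)
    (hd : ∀ e ∈ S, κ e ≠ none) (hd' : ∀ e ∈ S', κ e ≠ none)
    (hc : ∀ v, cnt κ S v = cnt κ S' v)
    (hfree : ∀ e, κ e = some none → (e ∈ S ↔ e ∈ S')) : S = S' := by
  classical
  have key : ∀ T T' : Finset V, (∀ e ∈ T, κ e ≠ none) → (∀ v, cnt κ T v = cnt κ T' v) →
      (∀ e, κ e = some none → (e ∈ T ↔ e ∈ T')) → T ⊆ T' := by
    intro T T' hT hcT hfT e he
    rcases h : κ e with _ | _ | v
    · exact absurd h (hT e he)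
    · exact (hfT e h).1 he
    · have h1 : 0 < cnt κ T v := (cnt_pos_iff κ).2 ⟨e, he, h⟩
      rw [hcT] at h1
      obtain ⟨e', he', hv'⟩ := (cnt_pos_iff κ).1 h1
      rw [hκ e e' v h hv']
      exact he'
  exact Finset.Subset.antisymm (key S S' hd hc hfree)
    (key S' S hd' (fun v => (hc v).symm) fun e he => (hfree e he).symm)

end

end Pool.Agent.Helper76.CDET
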