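import Pool.Agent.Helper76.CDET.Up
import Pool.Agent.Helper67.SDet.Block

/-!
Determinant sums for tests (MP_b6562f_lc): the coefficient of a product of distinct variables is
in the span of the minors.
-/

set_option autoImplicit false

namespace Pool.Agent.Helper76.CDET

open Finset MvPolynomial Pool.SDL Pool.Agent.SDet
open scoped BigOperators

section
variable {K : Type} [Field K] {σ Y : Type}

/-- setting the variables `Y` to zero -/
noncomputable def eps0 (K : Type) [Field K] (σ Y : Type) :
    MvPolynomial (σ ⊕ Y) K →ₐ[K] MvPolynomial σ K :=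
  aeval (Sum.elim X fun _ => 0)

/-- iterated derivative -/
noncomputable def itd (l : List Y) (f : MvPolynomial (σ ⊕ Y) K) : MvPolynomial (σ ⊕ Y) K :=
  l.foldr (fun y g => pderiv (Sum.inr y) g) f

theorem coeff_itd (f : MvPolynomial (σ ⊕ Y) K) : ∀ (l : List Y) (_ : l.Nodup)
    (m : (σ ⊕ Y) →₀ ℕ), (∀ y ∈ l, m (Sum.inr y) = 0) →
    coeff m (itd l f) = coeff (m + (l.map fun y => Finsupp.single (Sum.inr y) 1).sum) f := by
  classical
  intro l
  induction l with
  | nil => intro _ m _; simp [itd]
  | cons y l ih =>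
    intro hl m hm
    have h1 : itd (y :: l) f = pderiv (Sum.inr y) (itd l f) := rfl
    rw [h1, coeff_pderiv, hm y (by simp), Nat.cast_zero, zero_add, mul_one, List.map_cons,
      List.sum_cons, ← add_assoc]
    rw [List.nodup_cons] at hl
    refine ih hl.2 _ fun y' hy' => ?_
    have h2 : y' ≠ y := fun h => hl.1 (h ▸ hy')
    rw [Finsupp.add_apply, hm y' (List.mem_cons_of_mem _ hy'), Finsupp.single_apply,
      if_neg (by simpa using fun h => h2 h.symm), add_zero]

theorem coeff_eps0 (g : MvPolynomial (σ ⊕ Y) K) (T : σ →₀ ℕ) :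
    coeff T (eps0 K σ Y g) = coeff (Finsupp.mapDomain Sum.inl T) g := by
  classical
  induction g using MvPolynomial.induction_on' with
  | add p q hp hq => rw [map_add, coeff_add, coeff_add, hp, hq]
  | monomial n a =>
    rw [eps0, aeval_monomial, coeff_monomial]
    by_cases h : ∀ y, n (Sum.inr y) = 0
    · have hn : n = Finsupp.mapDomain Sum.inl (n.comapDomain Sum.inl Sum.inl_injective.injOn) := by
        ext x
        rcases x with s | y
        · rw [Finsupp.mapDomain_apply Sum.inl_injective, Finsupp.comapDomain_apply]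
        · rw [Finsupp.mapDomain_of_notMem_range _ _ (by simp), h y]
      have h3 : ∀ n' : σ →₀ ℕ, ((Finsupp.mapDomain (Sum.inl : σ → σ ⊕ Y) n').prod fun i k =>
          (Sum.elim (X : σ → MvPolynomial σ K) (fun _ : Y => 0) i) ^ k) = monomial n' 1 := by
        intro n'
        rw [Finsupp.prod_mapDomain_index_inj Sum.inl_injective]
        rw [monomial_eq, C_1, one_mul]
        rfl
      rw [hn, h3, algebraMap_eq, coeff_C_mul, coeff_monomial]
      by_cases h4 : n.comapDomain Sum.inl Sum.inl_injective.injOn = T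
      · rw [if_pos h4, if_pos (by rw [h4]), mul_one]
      · rw [if_neg h4, if_neg, mul_zero]
        intro h5
        exact h4 (Finsupp.mapDomain_injective Sum.inl_injective h5)
    · push Not at h
      obtain ⟨y, hy⟩ := h
      have h3 : (n.prod fun i k =>
          (Sum.elim (X : σ → MvPolynomial σ K) (fun _ : Y => 0) i) ^ k) = 0 := by
        refine Finset.prod_eq_zero (Finsupp.mem_support_iff.2 hy) ?_
        simpa using hy
      rw [h3, mul_zero, coeff_zero, if_neg]
      intro h4
      apply hy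
      rw [h4, Finsupp.mapDomain_of_notMem_range _ _ (by simp)]

/-- the coefficient of `∏ b, y b` (distinct variables), as a polynomial in the variables `σ` -/
noncomputable def Dc {D : ℕ} (y : Fin D → Y) (f : MvPolynomial (σ ⊕ Y) K) : MvPolynomial σ K :=
  eps0 K σ Y (itd (List.ofFn y) f)

theorem coeff_Dc {D : ℕ} (y : Fin D → Y) (hy : Function.Injective y)
    (f : MvPolynomial (σ ⊕ Y) K) (T : σ →₀ ℕ) :
    coeff T (Dc y f) = coeff (Finsupp.mapDomain Sum.inl T +
      ∑ b, Finsupp.single (Sum.inr (y b)) 1) f := by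
  rw [Dc, coeff_eps0, coeff_itd f _ (List.nodup_ofFn.2 hy)]
  · congr 2
    rw [List.map_ofFn, List.sum_ofFn]
    rfl
  · intro x _
    rw [Finsupp.mapDomain_of_notMem_range _ _ (by simp)]

theorem itd_mem {m : ℕ} (A : Matrix (Fin m) (Fin m) (MvPolynomial (σ ⊕ Y) K))
    (hA : ∀ p q, (A p q).totalDegree ≤ 1) (l : List Y) :
    itd l A.det ∈ Mn K A (m - l.length) := by
  induction l with
  | nil => exact det_mem_Mn A
  | cons y l ih =>
    have h1 : itd (y :: l) A.det = pderiv (Sum.inr y) (itd l A.det) := rfl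
    rw [h1, List.length_cons, ← Nat.sub_sub]
    exact deriv_mem A _ (fun i j => Pool.Agent.SDet.pderiv_affine _ _ (hA i j)) ih

theorem Dc_det_mem {m D : ℕ} (y : Fin D → Y)
    (A : Matrix (Fin m) (Fin m) (MvPolynomial (σ ⊕ Y) K))
    (hA : ∀ p q, (A p q).totalDegree ≤ 1) :
    Dc y A.det ∈ detSpan (A.map (eps0 K σ Y)) (m - D) := by
  rw [← Mn_eq]
  have h := itd_mem A hA (List.ofFn y)
  rw [List.length_ofFn] at h
  exact map_Mn (eps0 K σ Y) A h

theorem itd_sum {ι : Type} (s : Finset ι) (f : ι → MvPolynomial (σ ⊕ Y) K) (l : List Y) :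
    itd l (∑ i ∈ s, f i) = ∑ i ∈ s, itd l (f i) := by
  induction l with
  | nil => rfl
  | cons y l ih =>
    have h1 : ∀ g : MvPolynomial (σ ⊕ Y) K, itd (y :: l) g = pderiv (Sum.inr y) (itd l g) :=
      fun g => rfl
    rw [h1, ih, map_sum]
    exact Finset.sum_congr rfl fun i _ => (h1 _).symm

theorem Dc_sum {D : ℕ} (y : Fin D → Y) {ι : Type} (s : Finset ι)
    (f : ι → MvPolynomial (σ ⊕ Y) K) :
    Dc y (∑ i ∈ s, f i) = ∑ i ∈ s, Dc y (f i) := by
  rw [Dc, itd_sum, map_sum]
  rfl

theorem eps0_totalDegree (p : MvPolynomial (σ ⊕ Y) K) :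
    (eps0 K σ Y p).totalDegree ≤ p.totalDegree := by
  classical
  rw [totalDegree, Finset.sup_le_iff]
  intro T hT
  rw [mem_support_iff, coeff_eps0] at hT
  have h := le_totalDegree (mem_support_iff.2 hT)
  have h2 := Finsupp.degree_mapDomain (Sum.inl : σ → σ ⊕ Y) T
  have h3 : ∀ {τ : Type} (u : τ →₀ ℕ), (u.sum fun _ e => e) = u.degree := by
    intro τ u
    rw [Finsupp.degree_apply, Finsupp.sum]
  rw [h3] at h ⊢
  omega

end

end Pool.Agent.Helper76.CDET
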