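import Pool.Agent.Helper76.CDET.Series

/-!
Determinant sums for clique tests (MP_b6562f_lc): lower bound for the shifted space by lowest terms.
-/

set_option autoImplicit false

namespace Pool.Agent.Helper76.CDET

open Finset MvPolynomial
open scoped ENNReal BigOperators

variable {K : Type} [Field K] {σ E C : Type}

/-- multiples of the polynomials `G c` by monomials of degree at most `l` -/
noncomputable def Wl (E : Type) (G : C → MvPolynomial σ K) (l : ℕ) :
    Submodule K (MvPolynomial (σ ⊕ E) K) :=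
  Submodule.span K {f | ∃ (μ : (σ ⊕ E) →₀ ℕ) (c : C), μ.degree ≤ l ∧
    f = monomial μ 1 * rename Sum.inl (G c)}

/-- the monomials which are multiples of some `M c` -/
def InJ (M : C → σ →₀ ℕ) (ν : (σ ⊕ E) →₀ ℕ) : Prop := ∃ c, ∀ s, M c s ≤ ν (Sum.inl s)

theorem finite_Wl [Finite σ] [Finite E] [Finite C] (G : C → MvPolynomial σ K) (l : ℕ) :
    Module.Finite K (Wl E G l) := by
  apply Module.Finite.span_of_finite
  have h1 : Finite {u : (σ ⊕ E) →₀ ℕ // u.degree ≤ l} :=
    (Finsupp.finite_of_degree_le (σ := σ ⊕ E) l).to_subtype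
  refine (Set.finite_range (fun x : {u : (σ ⊕ E) →₀ ℕ // u.degree ≤ l} × C =>
    monomial x.1.1 (1:K) * rename Sum.inl (G x.2))).subset ?_
  rintro _ ⟨μ, c, hμ, rfl⟩
  exact ⟨(⟨μ, hμ⟩, c), rfl⟩

theorem coeff_shift (G : C → MvPolynomial σ K) (M : C → σ →₀ ℕ)
    (h1 : ∀ c T, coeff T (G c) ≠ 0 → M c ≤ T)
    (c : C) (ν ν' : (σ ⊕ E) →₀ ℕ) (hν : Finsupp.mapDomain Sum.inl (M c) ≤ ν)
    (h : coeff ν' (monomial (ν - Finsupp.mapDomain Sum.inl (M c)) (1:K) *
      rename Sum.inl (G c)) ≠ 0) : ν ≤ ν' := by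
  rw [coeff_monomial_mul'] at h
  split_ifs at h with h2
  · rw [one_mul] at h
    obtain ⟨T, hT, hT'⟩ := coeff_rename_ne_zero _ _ _ h
    have h3 := h1 c T hT'
    have h4 : Finsupp.mapDomain (Sum.inl : σ → σ ⊕ E) (M c) ≤ Finsupp.mapDomain Sum.inl T := by
      intro x
      rcases x with s | e
      · rw [Finsupp.mapDomain_apply Sum.inl_injective, Finsupp.mapDomain_apply Sum.inl_injective]
        exact h3 s
      · rw [Finsupp.mapDomain_of_notMem_range, Finsupp.mapDomain_of_notMem_range] <;> simp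
    intro x
    have h5 := h4 x
    have h6 := h2 x
    have h7 := DFunLike.congr_fun hT x
    have h8 := hν x
    simp only [Finsupp.tsub_apply] at h6 h7
    omega
  · exact absurd rfl h

theorem coeff_shift_self (G : C → MvPolynomial σ K) (M : C → σ →₀ ℕ)
    (h2 : ∀ c, coeff (M c) (G c) ≠ 0)
    (c : C) (ν : (σ ⊕ E) →₀ ℕ) (hν : Finsupp.mapDomain Sum.inl (M c) ≤ ν) :
    coeff ν (monomial (ν - Finsupp.mapDomain Sum.inl (M c)) (1:K) *
      rename Sum.inl (G c)) ≠ 0 := by
  rw [coeff_monomial_mul', if_pos tsub_le_self, one_mul, tsub_tsub_cancel_of_le hν,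
    coeff_rename_mapDomain _ Sum.inl_injective]
  exact h2 c

theorem mapDomain_le_iff (T : σ →₀ ℕ) (ν : (σ ⊕ E) →₀ ℕ) :
    Finsupp.mapDomain Sum.inl T ≤ ν ↔ ∀ s, T s ≤ ν (Sum.inl s) := by
  constructor
  · intro h s
    have := h (Sum.inl s)
    rwa [Finsupp.mapDomain_apply Sum.inl_injective] at this
  · intro h x
    rcases x with s | e
    · rw [Finsupp.mapDomain_apply Sum.inl_injective]
      exact h s
    · rw [Finsupp.mapDomain_of_notMem_range _ _ (by simp)]
      exact Nat.zero_le _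

theorem degree_mapDomain (T : σ →₀ ℕ) :
    (Finsupp.mapDomain (Sum.inl : σ → σ ⊕ E) T).degree = T.degree := by
  exact Finsupp.degree_mapDomain _ T

/-- lowest terms: the shifted space is at least as large as the number of multiples -/
theorem card_le_finrank [Finite σ] [Finite E] [Finite C] (G : C → MvPolynomial σ K)
    (M : C → σ →₀ ℕ) (B : ℕ) (hB : ∀ c, (M c).degree = B)
    (h1 : ∀ c T, coeff T (G c) ≠ 0 → M c ≤ T) (h2 : ∀ c, coeff (M c) (G c) ≠ 0) (l : ℕ) :
    Nat.card {ν : (σ ⊕ E) →₀ ℕ // ν.degree ≤ l + B ∧ InJ M ν} ≤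
      Module.finrank K (Wl E G l) := by
  classical
  have hfin : Finite {ν : (σ ⊕ E) →₀ ℕ // ν.degree ≤ l + B ∧ InJ M ν} :=
    ((Finsupp.finite_of_degree_le (σ := σ ⊕ E) (l + B)).subset fun ν hν => hν.1).to_subtype
  have := Fintype.ofFinite {ν : (σ ⊕ E) →₀ ℕ // ν.degree ≤ l + B ∧ InJ M ν}
  choose cc hcc using fun ν : {ν : (σ ⊕ E) →₀ ℕ // ν.degree ≤ l + B ∧ InJ M ν} => ν.2.2
  have hle : ∀ ν : {ν : (σ ⊕ E) →₀ ℕ // ν.degree ≤ l + B ∧ InJ M ν},
      Finsupp.mapDomain Sum.inl (M (cc ν)) ≤ ν.1 := fun ν => (mapDomain_le_iff _ _).2 (hcc ν)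
  let P : {ν : (σ ⊕ E) →₀ ℕ // ν.degree ≤ l + B ∧ InJ M ν} → MvPolynomial (σ ⊕ E) K := fun ν =>
    monomial (ν.1 - Finsupp.mapDomain Sum.inl (M (cc ν))) (1:K) * rename Sum.inl (G (cc ν))
  have hP : ∀ ν, P ν ∈ Wl E G l := by
    intro ν
    refine Submodule.subset_span ⟨_, cc ν, ?_, rfl⟩
    have h3 := congrArg Finsupp.degree (tsub_add_cancel_of_le (hle ν))
    rw [map_add, degree_mapDomain, hB] at h3
    have h4 := ν.2.1
    omega
  have hLI : LinearIndependent K P := by
    rw [Fintype.linearIndependent_iff]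
    intro g hg
    by_contra hne
    push Not at hne
    obtain ⟨i, hi⟩ := hne
    obtain ⟨ν, hν, hmin⟩ := Finset.exists_min_image (Finset.univ.filter fun ν => g ν ≠ 0)
      (fun ν => ν.1.degree) ⟨i, by simpa using hi⟩
    have h5 := congrArg (coeff ν.1) hg
    rw [coeff_sum, coeff_zero, Finset.sum_eq_single ν] at h5
    · rw [coeff_smul, smul_eq_mul] at h5
      rcases mul_eq_zero.1 h5 with h6 | h6
      · exact (Finset.mem_filter.1 hν).2 h6
      · exact coeff_shift_self G M h2 (cc ν) ν.1 (hle ν) h6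
    · intro ν' _ hne'
      rw [coeff_smul, smul_eq_mul]
      by_contra h6
      have h7 := left_ne_zero_of_mul h6
      have h8 := right_ne_zero_of_mul h6
      have h9 := coeff_shift G M h1 (cc ν') ν'.1 ν.1 (hle ν') h8
      have h10 := hmin ν' (Finset.mem_filter.2 ⟨Finset.mem_univ _, h7⟩)
      apply hne'
      apply Subtype.ext
      have h11 := congrArg Finsupp.degree (tsub_add_cancel_of_le h9)
      rw [map_add] at h11
      have h12 : (ν.1 - ν'.1).degree = 0 := by omega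
      rw [Finsupp.degree_eq_zero_iff] at h12
      have h13 := tsub_add_cancel_of_le h9
      rw [h12, zero_add] at h13
      exact h13
    · intro h; exact absurd (Finset.mem_univ _) h
  have hLI' : LinearIndependent K (fun ν => (⟨P ν, hP ν⟩ : Wl E G l)) :=
    LinearIndependent.of_comp (Wl E G l).subtype (by simpa [Function.comp_def] using hLI)
  have := finite_Wl (E := E) G l
  rw [Nat.card_eq_fintype_card]
  exact hLI'.fintype_card_le_finrank

theorem card_eq_tsum {T : Type} (p : T → Prop) [Finite {x // p x}] [DecidablePred p] :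
    (Nat.card {x // p x} : ℝ≥0∞) = ∑' x, if p x then (1 : ℝ≥0∞) else 0 := by
  classical
  have := Fintype.ofFinite {x // p x}
  have h : ∑' x, (if p x then (1 : ℝ≥0∞) else 0) = ∑' x : {x // p x}, (1 : ℝ≥0∞) := by
    have h1 := tsum_subtype {x | p x} (fun _ : T => (1 : ℝ≥0∞))
    simp only [Set.indicator_apply, Set.mem_setOf_eq] at h1
    exact h1.symm
  rw [h, tsum_fintype, Finset.sum_const, Finset.card_univ, Nat.card_eq_fintype_card, nsmul_eq_mul,
    mul_one]

/-- the series of all multiples, in the variables `σ ⊕ E` -/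
theorem tsum_sum (E : Type) [Fintype σ] [Fintype E] (p : (σ → ℕ) → Prop) [DecidablePred p] (Q : ℝ≥0∞) :
    ∑' ν : (σ ⊕ E) →₀ ℕ, (if p (fun s => ν (Sum.inl s)) then Q ^ ν.degree else 0) =
      (∑' u : σ → ℕ, (if p u then Q ^ (∑ s, u s) else 0)) * ((1 - Q)⁻¹) ^ Fintype.card E := by
  classical
  rw [← Finsupp.equivFunOnFinite.symm.tsum_eq, ← (Equiv.sumArrowEquivProdArrow σ E ℕ).symm.tsum_eq]
  have h1 : ∀ x : (σ → ℕ) × (E → ℕ),
      (if p (fun s => (Finsupp.equivFunOnFinite.symm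
        ((Equiv.sumArrowEquivProdArrow σ E ℕ).symm x)) (Sum.inl s)) then
        Q ^ (Finsupp.equivFunOnFinite.symm
          ((Equiv.sumArrowEquivProdArrow σ E ℕ).symm x)).degree else 0) =
      (if p x.1 then Q ^ (∑ s, x.1 s) else 0) * Q ^ (∑ e, x.2 e) := by
    intro x
    have h2 : (Finsupp.equivFunOnFinite.symm
        ((Equiv.sumArrowEquivProdArrow σ E ℕ).symm x)).degree = ∑ s, x.1 s + ∑ e, x.2 e := by
      rw [Finsupp.degree_eq_sum, Fintype.sum_sum_type]
      rfl
    have h3 : (fun s => (Finsupp.equivFunOnFinite.symm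
        ((Equiv.sumArrowEquivProdArrow σ E ℕ).symm x)) (Sum.inl s)) = x.1 := rfl
    rw [h2, h3, pow_add]
    split_ifs <;> simp
  simp_rw [h1]
  rw [ENNReal.tsum_prod (f := fun (a : σ → ℕ) (b : E → ℕ) =>
    (if p a then Q ^ (∑ s, a s) else 0) * Q ^ (∑ e, b e))]
  simp_rw [ENNReal.tsum_mul_left, ENNReal.tsum_mul_right]
  rw [tsum_all]

/-- the generating function of the shifted spaces is at least the density of the monomial ideal -/
theorem low_series (E : Type) [Fintype σ] [Fintype E] [Finite C] (G : C → MvPolynomial σ K)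
    (M : C → σ →₀ ℕ) (B : ℕ) (hB : ∀ c, (M c).degree = B)
    (h1 : ∀ c T, coeff T (G c) ≠ 0 → M c ≤ T) (h2 : ∀ c, coeff (M c) (G c) ≠ 0)
    (Q : ℝ≥0∞) (hQ : Q < 1) [DecidablePred fun u : σ → ℕ => ∃ c, ∀ s, M c s ≤ u s] :
    (1 - Q) ^ Fintype.card σ *
      ∑' u : σ → ℕ, (if ∃ c, ∀ s, M c s ≤ u s then Q ^ (∑ s, u s) else 0) ≤
    Q ^ B * ((1 - Q) ^ (Fintype.card σ + Fintype.card E + 1) *
      ∑' l : ℕ, Q ^ l * (Module.finrank K (Wl E G l) : ℝ≥0∞)) := by
  classical
  have h10 : (1 : ℝ≥0∞) - Q ≠ 0 := (tsub_pos_of_lt hQ).ne'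
  have h1t : (1 : ℝ≥0∞) - Q ≠ ∞ := (tsub_le_self.trans_lt ENNReal.one_lt_top).ne
  set S1 := ∑' u : σ → ℕ, (if ∃ c, ∀ s, M c s ≤ u s then Q ^ (∑ s, u s) else 0) with hS1
  have hmain : S1 * ((1 - Q)⁻¹) ^ Fintype.card E * (1 - Q)⁻¹ ≤
      Q ^ B * ∑' l : ℕ, Q ^ l * (Module.finrank K (Wl E G l) : ℝ≥0∞) := by
    rw [hS1, ← tsum_sum E (fun u : σ → ℕ => ∃ c, ∀ s, M c s ≤ u s) Q,
      ← ENNReal.tsum_mul_right, ← ENNReal.tsum_mul_left]
    calc ∑' ν : (σ ⊕ E) →₀ ℕ, (if ∃ c, ∀ s, M c s ≤ ν (Sum.inl s) then Q ^ ν.degree else 0) *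
          (1 - Q)⁻¹
        ≤ ∑' ν : (σ ⊕ E) →₀ ℕ, ∑' l : ℕ,
            (if ν.degree ≤ l + B ∧ InJ M ν then Q ^ (l + B) else 0) := by
          refine ENNReal.tsum_le_tsum fun ν => ?_
          by_cases hν : InJ M ν
          · rw [if_pos (by exact hν)]
            have hBν : B ≤ ν.degree := by
              obtain ⟨c, hc⟩ := hν
              rw [← hB c, ← degree_mapDomain (E := E) (M c)]
              have h3 := congrArg Finsupp.degree
                (tsub_add_cancel_of_le ((mapDomain_le_iff (M c) ν).2 hc))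
              rw [map_add] at h3
              omega
            calc Q ^ ν.degree * (1 - Q)⁻¹ = ∑' l' : ℕ, Q ^ ν.degree * Q ^ l' := by
                  rw [ENNReal.tsum_mul_left, ENNReal.tsum_geometric]
              _ ≤ ∑' l' : ℕ, (fun l : ℕ => (if ν.degree ≤ l + B ∧ InJ M ν then Q ^ (l + B) else 0))
                    (l' + (ν.degree - B)) := by
                  refine ENNReal.tsum_le_tsum fun l' => ?_
                  simp only
                  rw [if_pos ⟨by omega, hν⟩, ← pow_add]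
                  exact le_of_eq (congrArg _ (by omega))
              _ ≤ _ := ENNReal.tsum_comp_le_tsum_of_injective
                  (f := fun l' : ℕ => l' + (ν.degree - B)) (fun a b h => by simpa using h) _
          · rw [if_neg (by exact hν), zero_mul]
            exact zero_le
      _ = ∑' l : ℕ, ∑' ν : (σ ⊕ E) →₀ ℕ,
            (if ν.degree ≤ l + B ∧ InJ M ν then Q ^ (l + B) else 0) := ENNReal.tsum_comm
      _ ≤ ∑' l : ℕ, Q ^ B * (Q ^ l * (Module.finrank K (Wl E G l) : ℝ≥0∞)) := by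
          refine ENNReal.tsum_le_tsum fun l => ?_
          have hfin : Finite {ν : (σ ⊕ E) →₀ ℕ // ν.degree ≤ l + B ∧ InJ M ν} :=
            ((Finsupp.finite_of_degree_le (σ := σ ⊕ E) (l + B)).subset
              fun ν hν => hν.1).to_subtype
          have h3 : ∑' ν : (σ ⊕ E) →₀ ℕ,
              (if ν.degree ≤ l + B ∧ InJ M ν then Q ^ (l + B) else 0) =
              Q ^ (l + B) * (Nat.card {ν : (σ ⊕ E) →₀ ℕ // ν.degree ≤ l + B ∧ InJ M ν} : ℝ≥0∞) := by
            rw [card_eq_tsum, ← ENNReal.tsum_mul_left]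
            refine tsum_congr fun ν => ?_
            split_ifs <;> simp
          rw [h3, pow_add, mul_comm (Q ^ l), mul_assoc]
          gcongr
          exact card_le_finrank G M B hB h1 h2 l
  calc (1 - Q) ^ Fintype.card σ * S1
      = (1 - Q) ^ Fintype.card σ * S1 * ((1 - Q) ^ Fintype.card E * ((1 - Q)⁻¹) ^ Fintype.card E) *
          ((1 - Q) * (1 - Q)⁻¹) := by
        rw [← mul_pow, ENNReal.mul_inv_cancel h10 h1t, one_pow, mul_one, mul_one]
    _ = (1 - Q) ^ (Fintype.card σ + Fintype.card E + 1) *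
          (S1 * ((1 - Q)⁻¹) ^ Fintype.card E * (1 - Q)⁻¹) := by
        rw [pow_add, pow_add, pow_one]; ring
    _ ≤ (1 - Q) ^ (Fintype.card σ + Fintype.card E + 1) *
          (Q ^ B * ∑' l : ℕ, Q ^ l * (Module.finrank K (Wl E G l) : ℝ≥0∞)) := by gcongr
    _ = _ := by ring

end Pool.Agent.Helper76.CDET
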