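import Mathlib

/-!
Determinant sums for clique tests (MP_b6562f_lc): counting series.
-/

set_option autoImplicit false

namespace Pool.Agent.Helper76.CDET

open Finset
open scoped ENNReal BigOperators

/-- product of series, `Fin n` -/
theorem tsum_prod_fin (n : ℕ) : ∀ (κ : Fin n → Type) (g : ∀ i, κ i → ℝ≥0∞),
    ∑' f : (∀ i, κ i), ∏ i, g i (f i) = ∏ i, ∑' x, g i x := by
  induction n with
  | zero => intro κ g; simp
  | succ n ih =>
    intro κ g
    rw [← (Fin.consEquiv κ).tsum_eq]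
    have h1 : ∀ p : κ 0 × (∀ i : Fin n, κ i.succ), ∏ i, g i ((Fin.consEquiv κ) p i) =
        g 0 p.1 * ∏ i : Fin n, g i.succ (p.2 i) := by
      intro p
      rw [Fin.prod_univ_succ]
      rfl
    simp_rw [h1]
    rw [ENNReal.tsum_prod (f := fun a (b : ∀ i : Fin n, κ i.succ) =>
      g 0 a * ∏ i : Fin n, g i.succ (b i)), Fin.prod_univ_succ]
    simp_rw [ENNReal.tsum_mul_left, ENNReal.tsum_mul_right]
    rw [ih (fun i => κ i.succ) (fun i => g i.succ)]

/-- product of series over a finite type -/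
theorem tsum_prod_pi {ι : Type} [Fintype ι] (κ : Type) (g : ι → κ → ℝ≥0∞) :
    ∑' f : ι → κ, ∏ i, g i (f i) = ∏ i, ∑' x, g i x := by
  classical
  rw [← (Equiv.arrowCongr (Fintype.equivFin ι).symm (Equiv.refl κ)).tsum_eq]
  have h1 : ∀ f : Fin (Fintype.card ι) → κ,
      ∏ i, g i ((Equiv.arrowCongr (Fintype.equivFin ι).symm (Equiv.refl κ)) f i) =
      ∏ j, g ((Fintype.equivFin ι).symm j) (f j) := by
    intro f
    refine Fintype.prod_equiv (Fintype.equivFin ι) _ _ fun i => ?_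
    simp [Equiv.arrowCongr]
  simp_rw [h1]
  rw [tsum_prod_fin _ (fun _ => κ) (fun j => g ((Fintype.equivFin ι).symm j))]
  exact Fintype.prod_equiv (Fintype.equivFin ι).symm _ _ fun i => rfl

/-- all exponents -/
theorem tsum_all {S : Type} [Fintype S] (Q : ℝ≥0∞) :
    ∑' u : S → ℕ, Q ^ (∑ s, u s) = ((1 - Q)⁻¹) ^ Fintype.card S := by
  have h := tsum_prod_pi (ι := S) ℕ (fun _ x => Q ^ x)
  simp_rw [Finset.prod_pow_eq_pow_sum] at h
  rw [h, Finset.prod_const, ENNReal.tsum_geometric, Finset.card_univ]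

/-- positive exponents -/
theorem tsum_pos {S : Type} [Fintype S] (Q : ℝ≥0∞) :
    ∑' u : S → ℕ, (if ∀ s, 1 ≤ u s then Q ^ (∑ s, u s) else 0) =
      (Q * (1 - Q)⁻¹) ^ Fintype.card S := by
  classical
  have h := tsum_prod_pi (ι := S) ℕ (fun _ x => if 1 ≤ x then Q ^ x else 0)
  have h2 : ∀ u : S → ℕ, (∏ s, if 1 ≤ u s then Q ^ u s else 0) =
      if ∀ s, 1 ≤ u s then Q ^ (∑ s, u s) else 0 := by
    intro u
    split_ifs with hu
    · rw [← Finset.prod_pow_eq_pow_sum]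
      exact Finset.prod_congr rfl fun s _ => if_pos (hu s)
    · push Not at hu
      obtain ⟨s, hs⟩ := hu
      exact Finset.prod_eq_zero (Finset.mem_univ s) (if_neg (by omega))
  simp_rw [h2] at h
  rw [h, Finset.prod_const, Finset.card_univ]
  congr 1
  rw [tsum_eq_zero_add' ENNReal.summable]
  simp only [le_add_iff_nonneg_left, zero_le, if_true, pow_succ']
  rw [ENNReal.tsum_mul_left, ENNReal.tsum_geometric]
  simp

/-- exponents with a zero -/
theorem tsum_bad {S : Type} [Fintype S] (Q : ℝ≥0∞) (hQ : Q < 1) :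
    (1 - Q) ^ Fintype.card S *
      ∑' u : S → ℕ, (if ∀ s, 1 ≤ u s then 0 else Q ^ (∑ s, u s)) = 1 - Q ^ Fintype.card S := by
  have h10 : (1 : ℝ≥0∞) - Q ≠ 0 := (tsub_pos_of_lt hQ).ne'
  have h1t : (1 : ℝ≥0∞) - Q ≠ ∞ := (tsub_le_self.trans_lt ENNReal.one_lt_top).ne
  have h1 := tsum_all (S := S) Q
  have h2 := tsum_pos (S := S) Q
  have h3 : ∑' u : S → ℕ, Q ^ (∑ s, u s) =
      ∑' u : S → ℕ, (if ∀ s, 1 ≤ u s then Q ^ (∑ s, u s) else 0) +
      ∑' u : S → ℕ, (if ∀ s, 1 ≤ u s then 0 else Q ^ (∑ s, u s)) := by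
    rw [← ENNReal.tsum_add]
    refine tsum_congr fun u => ?_
    split_ifs <;> simp
  rw [h1, h2] at h3
  set b := ∑' u : S → ℕ, (if ∀ s, 1 ≤ u s then 0 else Q ^ (∑ s, u s)) with hb
  have h4 : (1 - Q) ^ Fintype.card S * ((1 - Q)⁻¹) ^ Fintype.card S = 1 := by
    rw [← mul_pow, ENNReal.mul_inv_cancel h10 h1t, one_pow]
  have h5 : (1 - Q) ^ Fintype.card S * (Q * (1 - Q)⁻¹) ^ Fintype.card S =
      Q ^ Fintype.card S := by
    rw [← mul_pow, mul_comm Q, ← mul_assoc, ENNReal.mul_inv_cancel h10 h1t, one_mul]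
  have h6 : (1 : ℝ≥0∞) = Q ^ Fintype.card S + (1 - Q) ^ Fintype.card S * b := by
    have h7 := h4
    rw [h3, mul_add, h5] at h7
    exact h7.symm
  have hQt : Q ^ Fintype.card S ≠ ∞ :=
    ENNReal.pow_ne_top (hQ.trans_le le_top).ne
  exact (ENNReal.eq_sub_of_add_eq hQt (by rw [add_comm]; exact h6.symm))

/-- one position, alphabet `α` -/
theorem series_pos {α S : Type} [Fintype α] [Fintype S] (Q : ℝ≥0∞) (hQ : Q < 1) :
    (1 - Q) ^ (Fintype.card α * Fintype.card S) *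
      ∑' h : α × S → ℕ, (if ∃ e, ∀ s, 1 ≤ h (e, s) then Q ^ (∑ x, h x) else 0) =
      1 - (1 - Q ^ Fintype.card S) ^ Fintype.card α := by
  have h10 : (1 : ℝ≥0∞) - Q ≠ 0 := (tsub_pos_of_lt hQ).ne'
  have h1t : (1 : ℝ≥0∞) - Q ≠ ∞ := (tsub_le_self.trans_lt ENNReal.one_lt_top).ne
  have h1 := tsum_all (S := α × S) Q
  have h3 : ∑' u : α × S → ℕ, Q ^ (∑ s, u s) =
      ∑' u : α × S → ℕ, (if ∃ e, ∀ s, 1 ≤ u (e, s) then Q ^ (∑ s, u s) else 0) +
      ∑' u : α × S → ℕ, (if ∃ e, ∀ s, 1 ≤ u (e, s) then 0 else Q ^ (∑ s, u s)) := by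
    rw [← ENNReal.tsum_add]
    refine tsum_congr fun u => ?_
    split_ifs <;> simp
  have h7 : ∑' u : α × S → ℕ, (if ∃ e, ∀ s, 1 ≤ u (e, s) then 0 else Q ^ (∑ s, u s)) =
      (∑' u : S → ℕ, (if ∀ s, 1 ≤ u s then 0 else Q ^ (∑ s, u s))) ^ Fintype.card α := by
    have h := tsum_prod_pi (ι := α) (S → ℕ)
      (fun _ u => if ∀ s, 1 ≤ u s then 0 else Q ^ (∑ s, u s))
    rw [Finset.prod_const, Finset.card_univ] at h
    rw [← h, ← (Equiv.curry α S ℕ).tsum_eq]
    refine tsum_congr fun u => ?_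
    split_ifs with h8
    · obtain ⟨e, he⟩ := h8
      symm
      refine Finset.prod_eq_zero (Finset.mem_univ e) (if_pos fun s => ?_)
      exact he s
    · push Not at h8
      rw [Fintype.sum_prod_type, ← Finset.prod_pow_eq_pow_sum]
      refine Finset.prod_congr rfl fun e _ => ?_
      rw [if_neg]
      · rfl
      · push Not
        obtain ⟨s, hs⟩ := h8 e
        exact ⟨s, hs⟩
  rw [h1, h7] at h3
  set g := ∑' u : α × S → ℕ, (if ∃ e, ∀ s, 1 ≤ u (e, s) then Q ^ (∑ s, u s) else 0) with hg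
  have h4 : (1 - Q) ^ Fintype.card (α × S) * ((1 - Q)⁻¹) ^ Fintype.card (α × S) = 1 := by
    rw [← mul_pow, ENNReal.mul_inv_cancel h10 h1t, one_pow]
  have h5 : (1 - Q) ^ Fintype.card (α × S) *
      (∑' u : S → ℕ, (if ∀ s, 1 ≤ u s then 0 else Q ^ (∑ s, u s))) ^ Fintype.card α =
      (1 - Q ^ Fintype.card S) ^ Fintype.card α := by
    rw [← tsum_bad Q hQ, mul_pow, ← pow_mul, Fintype.card_prod, mul_comm (Fintype.card α)]
  have h6 : (1 : ℝ≥0∞) = (1 - Q) ^ Fintype.card (α × S) * g +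
      (1 - Q ^ Fintype.card S) ^ Fintype.card α := by
    have h8 := h4
    rw [h3, mul_add, h5] at h8
    exact h8.symm
  have hle : (1 - Q ^ Fintype.card S) ^ Fintype.card α ≠ ∞ :=
    ENNReal.pow_ne_top (tsub_le_self.trans_lt ENNReal.one_lt_top).ne
  rw [← Fintype.card_prod]
  exact ENNReal.eq_sub_of_add_eq hle h6.symm

/-- all positions -/
theorem series_all {P α S : Type} [Fintype P] [Fintype α] [Fintype S] (Q : ℝ≥0∞) (hQ : Q < 1) :
    (1 - Q) ^ Fintype.card (P × (α × S)) *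
      ∑' ν : P × (α × S) → ℕ,
        (if ∀ p, ∃ e, ∀ s, 1 ≤ ν (p, (e, s)) then Q ^ (∑ x, ν x) else 0) =
      (1 - (1 - Q ^ Fintype.card S) ^ Fintype.card α) ^ Fintype.card P := by
  have h := tsum_prod_pi (ι := P) (α × S → ℕ)
    (fun _ u => if ∃ e, ∀ s, 1 ≤ u (e, s) then Q ^ (∑ x, u x) else 0)
  rw [Finset.prod_const, Finset.card_univ] at h
  have h2 : ∑' ν : P × (α × S) → ℕ,
        (if ∀ p, ∃ e, ∀ s, 1 ≤ ν (p, (e, s)) then Q ^ (∑ x, ν x) else 0) =
      (∑' u : α × S → ℕ, (if ∃ e, ∀ s, 1 ≤ u (e, s) then Q ^ (∑ x, u x) else 0)) ^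
        Fintype.card P := by
    rw [← h, ← (Equiv.curry P (α × S) ℕ).tsum_eq]
    refine tsum_congr fun u => ?_
    split_ifs with h8
    · rw [Fintype.sum_prod_type, ← Finset.prod_pow_eq_pow_sum]
      refine Finset.prod_congr rfl fun p _ => ?_
      rw [if_pos]
      · rfl
      · exact h8 p
    · push Not at h8
      obtain ⟨p, hp⟩ := h8
      symm
      refine Finset.prod_eq_zero (Finset.mem_univ p) (if_neg ?_)
      push Not
      exact hp
  rw [h2, ← series_pos Q hQ, mul_pow, ← pow_mul, Fintype.card_prod, Fintype.card_prod,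
    mul_comm (Fintype.card P)]

end Pool.Agent.Helper76.CDET
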