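import Pool.Agent.Helper76.CDET.Low
import Pool.Agent.Helper90.SD.U1
import Pool.Agent.Helper41.SDet.U2any
import Pool.Agent.Helper67.SDet.Minors

/-!
Determinant sums for clique tests (MP_b6562f_lc): upper bound for the shifted space (side (U)).
-/

set_option autoImplicit false

namespace Pool.Agent.Helper76.CDET

open Finset MvPolynomial Pool.SDL
open scoped ENNReal BigOperators

variable {K : Type} [Field K] {σ C : Type}

theorem finite_Ml [Finite σ] {m : ℕ} (A : Matrix (Fin m) (Fin m) (MvPolynomial σ K))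
    (k l : ℕ) : Module.Finite K (Ml A k l) := by
  unfold Ml
  apply Module.Finite.span_of_finite
  have h1 : Set.Finite {μ : (σ ⊕ (Fin m × Fin m)) →₀ ℕ | μ.degree ≤ l} :=
    Finsupp.finite_of_degree_le l
  have h2 : Set.Finite ((fun x : ((σ ⊕ (Fin m × Fin m)) →₀ ℕ) × (Fin k → Fin m) × (Fin k → Fin m) =>
      monomial x.1 (1:K) * rename Sum.inl (A.submatrix x.2.1 x.2.2).det) ''
      ({μ | μ.degree ≤ l} ×ˢ (Set.univ : Set ((Fin k → Fin m) × (Fin k → Fin m))))) :=
    (h1.prod Set.finite_univ).image _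
  apply h2.subset
  rintro f ⟨μ, r, c, hμ, -, -, rfl⟩
  exact ⟨(μ, r, c), ⟨hμ, Set.mem_univ _⟩, rfl⟩

theorem Wl_le_iSup {m t k l : ℕ} (G : C → MvPolynomial σ K)
    (L : Fin t → Matrix (Fin m) (Fin m) (MvPolynomial σ K))
    (hL : ∀ c, G c ∈ ⨆ i, detSpan (L i) k) :
    Wl (Fin m × Fin m) G l ≤ ⨆ i, Ml (L i) k l := by
  classical
  unfold Wl
  rw [Submodule.span_le]
  rintro f ⟨μ, c, hμ, rfl⟩
  set T : MvPolynomial σ K →ₗ[K] MvPolynomial (σ ⊕ (Fin m × Fin m)) K :=
    (LinearMap.mulLeft K (monomial μ (1:K))).comp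
      (rename (Sum.inl : σ → σ ⊕ (Fin m × Fin m))).toLinearMap with hT
  have h2 : T (G c) ∈ Submodule.map T (⨆ i, detSpan (L i) k) := Submodule.mem_map_of_mem (hL c)
  rw [Submodule.map_iSup] at h2
  have h3 : (⨆ i, Submodule.map T (detSpan (L i) k)) ≤ ⨆ i, Ml (L i) k l := by
    apply iSup_mono
    intro i
    unfold detSpan
    rw [Submodule.map_span, Submodule.span_le]
    rintro _ ⟨f, ⟨r, c, hr, hc, rfl⟩, rfl⟩
    apply Submodule.subset_span
    exact ⟨μ, r, c, hμ, hr, hc, rfl⟩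
  exact h3 h2

theorem finrank_iSup_le' {V : Type} [AddCommGroup V] [Module K V] {t : ℕ}
    (W : Fin t → Submodule K V) (hW : ∀ i, Module.Finite K (W i)) :
    Module.Finite K (⨆ i, W i : Submodule K V) ∧
    Module.finrank K (⨆ i, W i : Submodule K V) ≤ ∑ i, Module.finrank K (W i) := by
  classical
  have key : ∀ s : Finset (Fin t), Module.Finite K (s.sup W : Submodule K V) ∧
      Module.finrank K (s.sup W : Submodule K V) ≤ ∑ i ∈ s, Module.finrank K (W i) := by
    intro s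
    induction s using Finset.induction_on with
    | empty =>
      simp only [Finset.sum_empty]
      exact ⟨by rw [Finset.sup_empty]; infer_instance, by simp⟩
    | insert a s ha ih =>
      obtain ⟨ih1, ih2⟩ := ih
      rw [Finset.sup_insert, Finset.sum_insert ha]
      have := ih1
      have := hW a
      refine ⟨inferInstance, ?_⟩
      have := Submodule.finrank_add_le_finrank_add_finrank (W a) (s.sup W)
      omega
  have h := key Finset.univ
  rwa [Finset.sup_univ_eq_iSup] at h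

theorem finrank_Wl_le [Fintype σ] {m t k l : ℕ} (G : C → MvPolynomial σ K)
    (L : Fin t → Matrix (Fin m) (Fin m) (MvPolynomial σ K))
    (hA : ∀ i p q, (L i p q).totalDegree ≤ 1)
    (hL : ∀ c, G c ∈ ⨆ i, detSpan (L i) k) :
    Module.finrank K (Wl (Fin m × Fin m) G l) ≤ t *
      ∑ f : Fin k ↪o Fin m, ∑ g : Fin k ↪o Fin m,
        Nat.multichoose (Fintype.card σ + m * m + 1 - rho f - rho g) l := by
  classical
  have hfin := finrank_iSup_le' (fun i => Ml (L i) k l) (fun i => finite_Ml (L i) k l)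
  have := hfin.1
  calc Module.finrank K (Wl (Fin m × Fin m) G l)
      ≤ Module.finrank K (⨆ i, Ml (L i) k l :
        Submodule K (MvPolynomial (σ ⊕ (Fin m × Fin m)) K)) :=
        Submodule.finrank_mono (Wl_le_iSup G L hL)
    _ ≤ ∑ i, Module.finrank K (Ml (L i) k l) := hfin.2
    _ ≤ ∑ _i : Fin t, ∑ f : Fin k ↪o Fin m, ∑ g : Fin k ↪o Fin m,
        Nat.multichoose (Fintype.card σ + m * m + 1 - rho f - rho g) l := by
        apply Finset.sum_le_sum
        intro i _
        exact (Pool.Agent.Helper41.SD.U2_affine_any (L i) (hA i)).trans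
          Pool.Agent.Helper90.SD.U1_generic
    _ = _ := by simp

theorem up_series [Fintype σ] {m t k : ℕ} (G : C → MvPolynomial σ K)
    (L : Fin t → Matrix (Fin m) (Fin m) (MvPolynomial σ K))
    (hA : ∀ i p q, (L i p q).totalDegree ≤ 1)
    (hL : ∀ c, G c ∈ ⨆ i, detSpan (L i) k) (Q : ℝ≥0∞) (hQ : Q < 1) :
    (1 - Q) ^ (Fintype.card σ + Fintype.card (Fin m × Fin m) + 1) *
      ∑' l : ℕ, Q ^ l * (Module.finrank K (Wl (Fin m × Fin m) G l) : ℝ≥0∞) ≤
    t * (∑ f : Fin k ↪o Fin m, (1 - Q) ^ rho f) ^ 2 := by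
  classical
  have hc : Fintype.card (Fin m × Fin m) = m * m := by simp
  rw [hc]
  calc (1 - Q) ^ (Fintype.card σ + m * m + 1) *
      ∑' l : ℕ, Q ^ l * (Module.finrank K (Wl (Fin m × Fin m) G l) : ℝ≥0∞)
      ≤ (1 - Q) ^ (Fintype.card σ + m * m + 1) *
        ∑' l : ℕ, Q ^ l * ((t * ∑ f : Fin k ↪o Fin m, ∑ g : Fin k ↪o Fin m,
          Nat.multichoose (Fintype.card σ + m * m + 1 - rho f - rho g) l : ℕ) : ℝ≥0∞) := by
        gcongr with l
        exact finrank_Wl_le G L hA hL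
    _ = t * ((1 - Q) ^ (Fintype.card σ + m * m + 1) *
        ∑' l : ℕ, Q ^ l * ((∑ f : Fin k ↪o Fin m, ∑ g : Fin k ↪o Fin m,
          Nat.multichoose (Fintype.card σ + m * m + 1 - rho f - rho g) l : ℕ) : ℝ≥0∞)) := by
        rw [← ENNReal.tsum_mul_left, ← ENNReal.tsum_mul_left, ← ENNReal.tsum_mul_left]
        refine tsum_congr fun l => ?_
        push_cast
        ring
    _ ≤ _ := by
        gcongr
        exact Pool.Agent.Helper90.SD.U3_series Q hQ

/-- the comparison of both sides -/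
theorem compare [Fintype σ] [Finite C] {m t k : ℕ} (G : C → MvPolynomial σ K)
    (M : C → σ →₀ ℕ) (B : ℕ) (hB : ∀ c, (M c).degree = B)
    (h1 : ∀ c T, coeff T (G c) ≠ 0 → M c ≤ T) (h2 : ∀ c, coeff (M c) (G c) ≠ 0)
    (L : Fin t → Matrix (Fin m) (Fin m) (MvPolynomial σ K))
    (hA : ∀ i p q, (L i p q).totalDegree ≤ 1)
    (hL : ∀ c, G c ∈ ⨆ i, detSpan (L i) k) (Q : ℝ≥0∞) (hQ : Q < 1)
    [DecidablePred fun u : σ → ℕ => ∃ c, ∀ s, M c s ≤ u s] :
    (1 - Q) ^ Fintype.card σ *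
      ∑' u : σ → ℕ, (if ∃ c, ∀ s, M c s ≤ u s then Q ^ (∑ s, u s) else 0) ≤
    Q ^ B * (t * (∑ f : Fin k ↪o Fin m, (1 - Q) ^ rho f) ^ 2) := by
  exact (low_series (Fin m × Fin m) G M B hB h1 h2 Q hQ).trans
    (mul_le_mul' le_rfl (up_series G L hA hL Q hQ))

end Pool.Agent.Helper76.CDET
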